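import Mathlib

/-!
# Immersions into the unit sphere: local definitions

`φ : (Fin m → ℝ) → V` is a map from (an open part of) coordinate space into a real inner product
space, whose values are unit vectors.  All objects are the textbook coordinate expressions.
-/

namespace Pool.Agent.Q186.BH

variable {V : Type*} [NormedAddCommGroup V] [InnerProductSpace ℝ V] {m : ℕ}

/-- The partial derivative `∂ᵢ f`. -/
noncomputable def pd {W : Type*} [NormedAddCommGroup W] [NormedSpace ℝ W] (i : Fin m)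
    (f : (Fin m → ℝ) → W) (x : Fin m → ℝ) : W := fderiv ℝ f x (Pi.single i 1)

/-- The matrix `g_{ij} = ⟨∂ᵢφ, ∂ⱼφ⟩` of the induced Riemannian metric. -/
noncomputable def gram (φ : (Fin m → ℝ) → V) (x : Fin m → ℝ) : Matrix (Fin m) (Fin m) ℝ :=
  Matrix.of fun i j => inner ℝ (pd i φ x) (pd j φ x)

/-- The Christoffel symbol `Γᵏᵢⱼ` of the Levi-Civita connection of the induced metric. -/
noncomputable def chr (φ : (Fin m → ℝ) → V) (k i j : Fin m) (x : Fin m → ℝ) : ℝ :=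
  (1 / 2) * ∑ l, (gram φ x)⁻¹ k l * (pd i (fun y => gram φ y j l) x
    + pd j (fun y => gram φ y i l) x - pd l (fun y => gram φ y i j) x)

/-- The orthogonal projection of `w` to the tangent space of the unit sphere at `φ x`. -/
noncomputable def sph (φ : (Fin m → ℝ) → V) (x : Fin m → ℝ) (w : V) : V :=
  w - inner ℝ w (φ x) • φ x

/-- The orthogonal projection of `w` to the normal space of the immersion `φ` into the unit sphere
(the vectors orthogonal to `φ x` and to all `∂ᵢφ x`). -/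
noncomputable def nrm (φ : (Fin m → ℝ) → V) (x : Fin m → ℝ) (w : V) : V :=
  sph φ x w - ∑ i, ∑ j, ((gram φ x)⁻¹ i j * inner ℝ w (pd i φ x)) • pd j φ x

/-- The second fundamental form `B(∂ᵢ, ∂ⱼ)` of the immersion `φ` into the unit sphere. -/
noncomputable def sff (φ : (Fin m → ℝ) → V) (i j : Fin m) (x : Fin m → ℝ) : V :=
  nrm φ x (pd i (pd j φ) x)

/-- The mean curvature vector `H = (1/m) trace B`. -/
noncomputable def mcv (φ : (Fin m → ℝ) → V) (x : Fin m → ℝ) : V :=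
  (1 / (m : ℝ)) • ∑ i, ∑ j, (gram φ x)⁻¹ i j • sff φ i j x

/-- The tension field `τ(φ) = m H`. -/
noncomputable def tension (φ : (Fin m → ℝ) → V) (x : Fin m → ℝ) : V := (m : ℝ) • mcv φ x

/-- The covariant derivative `∇ᵢ W` of a vector field `W` along `φ` tangent to the sphere
(the pull-back of the Levi-Civita connection of the unit sphere). -/
noncomputable def cov (φ : (Fin m → ℝ) → V) (i : Fin m) (W : (Fin m → ℝ) → V)
    (x : Fin m → ℝ) : V := sph φ x (pd i W x)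

/-- The rough Laplacian with sign `-Δ W = trace (∇∇ W)`, that is
`∑ gⁱʲ (∇ᵢ ∇ⱼ W - Γᵏᵢⱼ ∇ₖ W)`. -/
noncomputable def roughLap (φ : (Fin m → ℝ) → V) (W : (Fin m → ℝ) → V) (x : Fin m → ℝ) : V :=
  ∑ i, ∑ j, (gram φ x)⁻¹ i j • (cov φ i (cov φ j W) x - ∑ k, chr φ k i j x • cov φ k W x)

/-- The curvature tensor of the unit sphere `R(X, Y) Z = ⟨Y, Z⟩ X - ⟨X, Z⟩ Y`. -/
noncomputable def curvS (X Y Z : V) : V := (inner ℝ Y Z) • X - (inner ℝ X Z) • Y

/-- The bitension field `τ₂(φ) = -Δ τ(φ) - trace R(dφ, τ(φ)) dφ`. -/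
noncomputable def bitension (φ : (Fin m → ℝ) → V) (x : Fin m → ℝ) : V :=
  roughLap φ (tension φ) x
    - ∑ i, ∑ j, (gram φ x)⁻¹ i j • curvS (pd i φ x) (tension φ x) (pd j φ x)

/-- The component `Aⁱⱼ` of the shape operator in the direction of the mean curvature vector:
`A_H ∂ⱼ = ∑ᵢ Aⁱⱼ ∂ᵢ`, with `⟨A_H ∂ⱼ, ∂ₖ⟩ = ⟨B(∂ₖ, ∂ⱼ), H⟩`. -/
noncomputable def shape (φ : (Fin m → ℝ) → V) (i j : Fin m) (x : Fin m → ℝ) : ℝ :=
  ∑ k, (gram φ x)⁻¹ i k * inner ℝ (sff φ k j x) (mcv φ x)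

/-- The component `(∇ₖ A_H)ⁱⱼ` of the covariant derivative of the `(1,1)`-tensor `A_H`. -/
noncomputable def covShape (φ : (Fin m → ℝ) → V) (k i j : Fin m) (x : Fin m → ℝ) : ℝ :=
  pd k (shape φ i j) x + ∑ l, chr φ i k l x * shape φ l j x
    - ∑ l, chr φ l k j x * shape φ i l x

/-- `φ` is a smooth immersion of the open set `U ⊆ ℝᵐ` into the unit sphere of `V`. -/
def IsSphImm (U : Set (Fin m → ℝ)) (φ : (Fin m → ℝ) → V) : Prop :=
  IsOpen U ∧ ContDiffOn ℝ (⊤ : ℕ∞) φ U ∧ (∀ x ∈ U, ‖φ x‖ = 1) ∧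
    ∀ x ∈ U, Function.Injective (fderiv ℝ φ x)

/-- The mean curvature vector is parallel in the normal bundle: `∇^⊥ H = 0`. -/
def IsPMC (U : Set (Fin m → ℝ)) (φ : (Fin m → ℝ) → V) : Prop :=
  ∀ x ∈ U, ∀ i, nrm φ x (pd i (mcv φ) x) = 0

/-- `φ` is biharmonic on `U`: its bitension field vanishes. -/
def IsBiharmonic (U : Set (Fin m → ℝ)) (φ : (Fin m → ℝ) → V) : Prop :=
  ∀ x ∈ U, bitension φ x = 0

end Pool.Agent.Q186.BH
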