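import Pool.Agent.Q186.BH.Frame3

/-!
# The example: building blocks (auxiliary)
-/

namespace Pool.Agent.Q186.BH

open Finset Filter Topology Real

variable {V : Type*} [NormedAddCommGroup V] [InnerProductSpace ℝ V] {m : ℕ}

/-- Index type of the frame. -/
abbrev Kap : Type := Fin 3 ⊕ Fin 7

/-- Index type of the orthonormal family. -/
abbrev Iot : Type := (Fin 3 × Fin 3) ⊕ (Fin 7 × Fin 2)

/-- Reindexing. -/
def rr : Kap ≃ Fin 10 := finSumFinEquiv

variable (e : Iot → V)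

/-- The tensor `u ⊗ v`. -/
noncomputable def bt (u v : Fin 3 → ℝ) : V := ∑ p, ∑ q, (u p * v q) • e (Sum.inl (p, q))

theorem bt_add_left (u u' v : Fin 3 → ℝ) : bt e (u + u') v = bt e u v + bt e u' v := by
  simp only [bt, Pi.add_apply, add_mul, add_smul, sum_add_distrib]

theorem bt_add_right (u v v' : Fin 3 → ℝ) : bt e u (v + v') = bt e u v + bt e u v' := by
  simp only [bt, Pi.add_apply, mul_add, add_smul, sum_add_distrib]

theorem bt_smul_left (c : ℝ) (u v : Fin 3 → ℝ) : bt e (c • u) v = c • bt e u v := by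
  simp only [bt, Pi.smul_apply, smul_eq_mul, smul_sum, smul_smul, mul_assoc]

theorem bt_smul_right (c : ℝ) (u v : Fin 3 → ℝ) : bt e u (c • v) = c • bt e u v := by
  simp only [bt, Pi.smul_apply, smul_eq_mul, smul_sum, smul_smul, mul_left_comm]

theorem inner_bt (he : ∀ a b, inner ℝ (e a) (e b) = if a = b then (1 : ℝ) else 0)
    (u v u' v' : Fin 3 → ℝ) :
    inner ℝ (bt e u v) (bt e u' v') = (∑ p, u p * u' p) * (∑ q, v q * v' q) := by
  simp only [bt, sum_inner, inner_sum, inner_smul_left, inner_smul_right, he]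
  simp [Fin.sum_univ_three]
  ring

theorem inner_bt_e (he : ∀ a b, inner ℝ (e a) (e b) = if a = b then (1 : ℝ) else 0)
    (u v : Fin 3 → ℝ) (j : Fin 7 × Fin 2) :
    inner ℝ (bt e u v) (e (Sum.inr j)) = (0 : ℝ) := by
  simp only [bt, sum_inner, inner_smul_left, he]
  simp

theorem pd_bt {u v : (Fin m → ℝ) → (Fin 3 → ℝ)} {x : Fin m → ℝ} (i : Fin m)
    (hu : ∀ p, DifferentiableAt ℝ (fun y => u y p) x)
    (hv : ∀ p, DifferentiableAt ℝ (fun y => v y p) x) :
    pd i (fun y => bt e (u y) (v y)) x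
      = bt e (fun p => pd i (fun y => u y p) x) (v x)
        + bt e (u x) (fun p => pd i (fun y => v y p) x) := by
  unfold bt
  have hd : ∀ p q, DifferentiableAt ℝ (fun y => (u y p * v y q) • e (Sum.inl (p, q))) x :=
    fun p q => ((hu p).fun_mul (hv q)).smul_const _
  rw [pd_sum _ (fun p _ => DifferentiableAt.fun_sum fun q _ => hd p q), ← sum_add_distrib]
  refine sum_congr rfl fun p _ => ?_
  rw [pd_sum _ (fun q _ => hd p q), ← sum_add_distrib]
  refine sum_congr rfl fun q _ => ?_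
  rw [pd_smul ((hu p).fun_mul (hv q)) (differentiableAt_const _), pd_mul (hu p) (hv q)]
  have : pd i (fun _ : Fin m → ℝ => e (Sum.inl (p, q))) x = 0 := by simp [pd]
  rw [this, smul_zero, zero_add, ← add_smul]
  congr 1
  ring

theorem differentiableAt_bt {u v : (Fin m → ℝ) → (Fin 3 → ℝ)} {x : Fin m → ℝ}
    (hu : ∀ p, DifferentiableAt ℝ (fun y => u y p) x)
    (hv : ∀ p, DifferentiableAt ℝ (fun y => v y p) x) :
    DifferentiableAt ℝ (fun y => bt e (u y) (v y)) x := by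
  unfold bt
  exact DifferentiableAt.fun_sum fun p _ => DifferentiableAt.fun_sum fun q _ =>
    ((hu p).fun_mul (hv q)).smul_const _

/-! ### The rotation frame -/

/-- The rows of a rotation matrix depending on three angles. -/
noncomputable def cc (p : Fin 3) (x : Fin 10 → ℝ) : Fin 3 → ℝ :=
  match p with
  | 0 => ![cos (x 1) * cos (x 0), cos (x 1) * sin (x 0), sin (x 1)]
  | 1 => ![-(cos (x 2) * sin (x 0)) - sin (x 2) * sin (x 1) * cos (x 0),
      cos (x 2) * cos (x 0) - sin (x 2) * sin (x 1) * sin (x 0), sin (x 2) * cos (x 1)]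
  | 2 => ![sin (x 2) * sin (x 0) - cos (x 2) * sin (x 1) * cos (x 0),
      -(sin (x 2) * cos (x 0)) - cos (x 2) * sin (x 1) * sin (x 0), cos (x 2) * cos (x 1)]

theorem cc_orth (p q : Fin 3) (x : Fin 10 → ℝ) :
    ∑ s, cc p x s * cc q x s = if p = q then 1 else 0 := by
  have h0 := sin_sq_add_cos_sq (x 0)
  have h1 := sin_sq_add_cos_sq (x 1)
  have h2 := sin_sq_add_cos_sq (x 2)
  rw [Fin.sum_univ_three]
  have e00 : cc 0 x 0 = cos (x 1) * cos (x 0) := rfl
  have e01 : cc 0 x 1 = cos (x 1) * sin (x 0) := rfl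
  have e02 : cc 0 x 2 = sin (x 1) := rfl
  have e10 : cc 1 x 0 = -(cos (x 2) * sin (x 0)) - sin (x 2) * sin (x 1) * cos (x 0) := rfl
  have e11 : cc 1 x 1 = cos (x 2) * cos (x 0) - sin (x 2) * sin (x 1) * sin (x 0) := rfl
  have e12 : cc 1 x 2 = sin (x 2) * cos (x 1) := rfl
  have e20 : cc 2 x 0 = sin (x 2) * sin (x 0) - cos (x 2) * sin (x 1) * cos (x 0) := rfl
  have e21 : cc 2 x 1 = -(sin (x 2) * cos (x 0)) - cos (x 2) * sin (x 1) * sin (x 0) := rfl
  have e22 : cc 2 x 2 = cos (x 2) * cos (x 1) := rfl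
  set C0 := cos (x 0)
  set C1 := cos (x 1)
  set C2 := cos (x 2)
  set S0 := sin (x 0)
  set S1 := sin (x 1)
  set S2 := sin (x 2)
  fin_cases p <;> fin_cases q
  · change cc 0 x 0 * cc 0 x 0 + cc 0 x 1 * cc 0 x 1 + cc 0 x 2 * cc 0 x 2 = (1:ℝ)
    rw [e00, e01, e02]
    linear_combination C1^2 * h0 + h1
  · change cc 0 x 0 * cc 1 x 0 + cc 0 x 1 * cc 1 x 1 + cc 0 x 2 * cc 1 x 2 = (0:ℝ)
    rw [e00, e01, e02, e10, e11, e12]
    linear_combination - C1*S1*S2 * h0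
  · change cc 0 x 0 * cc 2 x 0 + cc 0 x 1 * cc 2 x 1 + cc 0 x 2 * cc 2 x 2 = (0:ℝ)
    rw [e00, e01, e02, e20, e21, e22]
    linear_combination - C1*S1*C2 * h0
  · change cc 1 x 0 * cc 0 x 0 + cc 1 x 1 * cc 0 x 1 + cc 1 x 2 * cc 0 x 2 = (0:ℝ)
    rw [e00, e01, e02, e10, e11, e12]
    linear_combination - C1*S1*S2 * h0
  · change cc 1 x 0 * cc 1 x 0 + cc 1 x 1 * cc 1 x 1 + cc 1 x 2 * cc 1 x 2 = (1:ℝ)
    rw [e10, e11, e12]
    linear_combination (C2^2 + S2^2 * S1^2) * h0 + S2^2 * h1 + h2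
  · change cc 1 x 0 * cc 2 x 0 + cc 1 x 1 * cc 2 x 1 + cc 1 x 2 * cc 2 x 2 = (0:ℝ)
    rw [e10, e11, e12, e20, e21, e22]
    linear_combination (- C2 * S2 + S2 * C2 * S1^2) * h0 + S2*C2 * h1
  · change cc 2 x 0 * cc 0 x 0 + cc 2 x 1 * cc 0 x 1 + cc 2 x 2 * cc 0 x 2 = (0:ℝ)
    rw [e00, e01, e02, e20, e21, e22]
    linear_combination - C1*S1*C2 * h0
  · change cc 2 x 0 * cc 1 x 0 + cc 2 x 1 * cc 1 x 1 + cc 2 x 2 * cc 1 x 2 = (0:ℝ)
    rw [e10, e11, e12, e20, e21, e22]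
    linear_combination (- C2 * S2 + S2 * C2 * S1^2) * h0 + S2*C2 * h1
  · change cc 2 x 0 * cc 2 x 0 + cc 2 x 1 * cc 2 x 1 + cc 2 x 2 * cc 2 x 2 = (1:ℝ)
    rw [e20, e21, e22]
    linear_combination (S2^2 + C2^2 * S1^2) * h0 + C2^2 * h1 + h2

/-- The coordinate `a` of the `i`-th basis vector. -/
def dl (a i : Fin 10) : ℝ := if a = i then 1 else 0

theorem pd_cos (a i : Fin 10) (x : Fin 10 → ℝ) :
    pd i (fun y : Fin 10 → ℝ => cos (y a)) x = - sin (x a) * dl a i := by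
  have h : HasFDerivAt (fun y : Fin 10 → ℝ => cos (y a))
      (-sin (x a) • (ContinuousLinearMap.proj a : (Fin 10 → ℝ) →L[ℝ] ℝ)) x :=
    ((ContinuousLinearMap.proj a : (Fin 10 → ℝ) →L[ℝ] ℝ).hasFDerivAt (x := x)).cos
  rw [pd, h.fderiv]
  simp [dl, Pi.single_apply]

theorem pd_sin (a i : Fin 10) (x : Fin 10 → ℝ) :
    pd i (fun y : Fin 10 → ℝ => sin (y a)) x = cos (x a) * dl a i := by
  have h : HasFDerivAt (fun y : Fin 10 → ℝ => sin (y a))
      (cos (x a) • (ContinuousLinearMap.proj a : (Fin 10 → ℝ) →L[ℝ] ℝ)) x :=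
    ((ContinuousLinearMap.proj a : (Fin 10 → ℝ) →L[ℝ] ℝ).hasFDerivAt (x := x)).sin
  rw [pd, h.fderiv]
  simp [dl, Pi.single_apply]

/-- The connection forms of the rotation frame, evaluated on the `i`-th basis vector. -/
noncomputable def eta12 (i : Fin 10) (x : Fin 10 → ℝ) : ℝ :=
  cos (x 1) * cos (x 2) * dl 0 i + sin (x 2) * dl 1 i
noncomputable def eta13 (i : Fin 10) (x : Fin 10 → ℝ) : ℝ :=
  -(cos (x 1) * sin (x 2)) * dl 0 i + cos (x 2) * dl 1 i
noncomputable def eta23 (i : Fin 10) (x : Fin 10 → ℝ) : ℝ :=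
  dl 2 i + sin (x 1) * dl 0 i

theorem pd_neg' {m : ℕ} {i : Fin m} {f : (Fin m → ℝ) → ℝ} {x : Fin m → ℝ} :
    pd i (fun y => - f y) x = - pd i f x := by
  unfold pd
  rw [fderiv_fun_neg]; rfl

theorem pd_sub' {m : ℕ} {i : Fin m} {f g : (Fin m → ℝ) → ℝ} {x : Fin m → ℝ}
    (hf : DifferentiableAt ℝ f x) (hg : DifferentiableAt ℝ g x) :
    pd i (fun y => f y - g y) x = pd i f x - pd i g x := by
  unfold pd
  rw [fderiv_fun_sub hf hg]; rfl

theorem dcc (p s : Fin 3) (x : Fin 10 → ℝ) : DifferentiableAt ℝ (fun y => cc p y s) x := by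
  fin_cases p <;> fin_cases s <;> simp [cc] <;> fun_prop

theorem pd_cc0 (i : Fin 10) (x : Fin 10 → ℝ) :
    (fun s => pd i (fun y => cc 0 y s) x) = eta12 i x • cc 1 x + eta13 i x • cc 2 x := by
  funext s
  have e10 : cc 1 x 0 = -(cos (x 2) * sin (x 0)) - sin (x 2) * sin (x 1) * cos (x 0) := rfl
  have e11 : cc 1 x 1 = cos (x 2) * cos (x 0) - sin (x 2) * sin (x 1) * sin (x 0) := rfl
  have e12 : cc 1 x 2 = sin (x 2) * cos (x 1) := rfl
  have e20 : cc 2 x 0 = sin (x 2) * sin (x 0) - cos (x 2) * sin (x 1) * cos (x 0) := rfl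
  have e21 : cc 2 x 1 = -(sin (x 2) * cos (x 0)) - cos (x 2) * sin (x 1) * sin (x 0) := rfl
  have e22 : cc 2 x 2 = cos (x 2) * cos (x 1) := rfl
  fin_cases s
  · change pd i (fun y : Fin 10 → ℝ => cos (y 1) * cos (y 0)) x
      = eta12 i x * cc 1 x 0 + eta13 i x * cc 2 x 0
    rw [pd_mul (by fun_prop) (by fun_prop), pd_cos, pd_cos, e10, e20, eta12, eta13]
    ring_nf
    simp only [cos_sq']
    ring
  · change pd i (fun y : Fin 10 → ℝ => cos (y 1) * sin (y 0)) x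
      = eta12 i x * cc 1 x 1 + eta13 i x * cc 2 x 1
    rw [pd_mul (by fun_prop) (by fun_prop), pd_cos, pd_sin, e11, e21, eta12, eta13]
    ring_nf
    simp only [cos_sq']
    ring
  · change pd i (fun y : Fin 10 → ℝ => sin (y 1)) x
      = eta12 i x * cc 1 x 2 + eta13 i x * cc 2 x 2
    rw [pd_sin, e12, e22, eta12, eta13]
    ring_nf
    simp only [cos_sq']
    ring

theorem pd_cc1 (i : Fin 10) (x : Fin 10 → ℝ) :
    (fun s => pd i (fun y => cc 1 y s) x) = (- eta12 i x) • cc 0 x + eta23 i x • cc 2 x := by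
  funext s
  have e00 : cc 0 x 0 = cos (x 1) * cos (x 0) := rfl
  have e01 : cc 0 x 1 = cos (x 1) * sin (x 0) := rfl
  have e02 : cc 0 x 2 = sin (x 1) := rfl
  have e20 : cc 2 x 0 = sin (x 2) * sin (x 0) - cos (x 2) * sin (x 1) * cos (x 0) := rfl
  have e21 : cc 2 x 1 = -(sin (x 2) * cos (x 0)) - cos (x 2) * sin (x 1) * sin (x 0) := rfl
  have e22 : cc 2 x 2 = cos (x 2) * cos (x 1) := rfl
  fin_cases s
  · change pd i (fun y : Fin 10 → ℝ =>
      -(cos (y 2) * sin (y 0)) - sin (y 2) * sin (y 1) * cos (y 0)) x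
      = (- eta12 i x) * cc 0 x 0 + eta23 i x * cc 2 x 0
    rw [pd_sub' (by fun_prop) (by fun_prop), pd_neg', pd_mul (by fun_prop) (by fun_prop),
      pd_mul (by fun_prop) (by fun_prop), pd_mul (by fun_prop) (by fun_prop),
      pd_cos, pd_cos, pd_sin, pd_sin, pd_sin, e00, e20, eta12, eta23]
    ring_nf
    simp only [cos_sq']
    ring
  · change pd i (fun y : Fin 10 → ℝ =>
      cos (y 2) * cos (y 0) - sin (y 2) * sin (y 1) * sin (y 0)) x
      = (- eta12 i x) * cc 0 x 1 + eta23 i x * cc 2 x 1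
    rw [pd_sub' (by fun_prop) (by fun_prop), pd_mul (by fun_prop) (by fun_prop),
      pd_mul (by fun_prop) (by fun_prop), pd_mul (by fun_prop) (by fun_prop),
      pd_cos, pd_cos, pd_sin, pd_sin, pd_sin, e01, e21, eta12, eta23]
    ring_nf
    simp only [cos_sq']
    ring
  · change pd i (fun y : Fin 10 → ℝ => sin (y 2) * cos (y 1)) x
      = (- eta12 i x) * cc 0 x 2 + eta23 i x * cc 2 x 2
    rw [pd_mul (by fun_prop) (by fun_prop), pd_cos, pd_sin, e02, e22, eta12, eta23]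
    ring

theorem pd_cc2 (i : Fin 10) (x : Fin 10 → ℝ) :
    (fun s => pd i (fun y => cc 2 y s) x) = (- eta13 i x) • cc 0 x + (- eta23 i x) • cc 1 x := by
  funext s
  have e00 : cc 0 x 0 = cos (x 1) * cos (x 0) := rfl
  have e01 : cc 0 x 1 = cos (x 1) * sin (x 0) := rfl
  have e02 : cc 0 x 2 = sin (x 1) := rfl
  have e10 : cc 1 x 0 = -(cos (x 2) * sin (x 0)) - sin (x 2) * sin (x 1) * cos (x 0) := rfl
  have e11 : cc 1 x 1 = cos (x 2) * cos (x 0) - sin (x 2) * sin (x 1) * sin (x 0) := rfl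
  have e12 : cc 1 x 2 = sin (x 2) * cos (x 1) := rfl
  fin_cases s
  · change pd i (fun y : Fin 10 → ℝ =>
      sin (y 2) * sin (y 0) - cos (y 2) * sin (y 1) * cos (y 0)) x
      = (- eta13 i x) * cc 0 x 0 + (- eta23 i x) * cc 1 x 0
    rw [pd_sub' (by fun_prop) (by fun_prop), pd_mul (by fun_prop) (by fun_prop),
      pd_mul (by fun_prop) (by fun_prop), pd_mul (by fun_prop) (by fun_prop),
      pd_cos, pd_cos, pd_sin, pd_sin, pd_sin, e00, e10, eta13, eta23]
    ring_nf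
    simp only [cos_sq']
    ring
  · change pd i (fun y : Fin 10 → ℝ =>
      -(sin (y 2) * cos (y 0)) - cos (y 2) * sin (y 1) * sin (y 0)) x
      = (- eta13 i x) * cc 0 x 1 + (- eta23 i x) * cc 1 x 1
    rw [pd_sub' (by fun_prop) (by fun_prop), pd_neg', pd_mul (by fun_prop) (by fun_prop),
      pd_mul (by fun_prop) (by fun_prop), pd_mul (by fun_prop) (by fun_prop),
      pd_cos, pd_cos, pd_sin, pd_sin, pd_sin, e01, e11, eta13, eta23]
    ring_nf
    simp only [cos_sq']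
    ring
  · change pd i (fun y : Fin 10 → ℝ => cos (y 2) * cos (y 1)) x
      = (- eta13 i x) * cc 0 x 2 + (- eta23 i x) * cc 1 x 2
    rw [pd_mul (by fun_prop) (by fun_prop), pd_cos, pd_cos, e02, e12, eta13, eta23]
    ring

end Pool.Agent.Q186.BH
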