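import Pool.Agent.Q186.BH.ExA

/-!
# The example: the frame (auxiliary)
-/

namespace Pool.Agent.Q186.BH

open Finset Filter Topology Real

variable {V : Type*} [NormedAddCommGroup V] [InnerProductSpace ℝ V]

variable (e : Iot → V)

/-- The symmetric tensors `cₚ ⊗ cₚ`. -/
noncomputable def PP (p : Fin 3) (x : Fin 10 → ℝ) : V := bt e (cc p x) (cc p x)

/-- The symmetric tensors `cₚ ⊗ c_s + c_s ⊗ cₚ`. -/
noncomputable def SS (p s : Fin 3) (x : Fin 10 → ℝ) : V :=
  bt e (cc p x) (cc s x) + bt e (cc s x) (cc p x)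

theorem dPP (p : Fin 3) (x : Fin 10 → ℝ) : DifferentiableAt ℝ (PP e p) x :=
  differentiableAt_bt e (fun s => dcc p s x) (fun s => dcc p s x)

theorem dSS (p s : Fin 3) (x : Fin 10 → ℝ) : DifferentiableAt ℝ (SS e p s) x :=
  (differentiableAt_bt e (fun t => dcc p t x) (fun t => dcc s t x)).add
    (differentiableAt_bt e (fun t => dcc s t x) (fun t => dcc p t x))

theorem pd_PP (p : Fin 3) (i : Fin 10) (x : Fin 10 → ℝ) {u : Fin 3 → ℝ}
    (hu : (fun s => pd i (fun y => cc p y s) x) = u) :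
    pd i (PP e p) x = bt e u (cc p x) + bt e (cc p x) u := by
  have h := pd_bt e (u := cc p) (v := cc p) (x := x) i (fun s => dcc p s x) (fun s => dcc p s x)
  rw [hu] at h
  exact h

theorem pd_SS (p s : Fin 3) (i : Fin 10) (x : Fin 10 → ℝ) {u v : Fin 3 → ℝ}
    (hu : (fun t => pd i (fun y => cc p y t) x) = u)
    (hv : (fun t => pd i (fun y => cc s y t) x) = v) :
    pd i (SS e p s) x = bt e u (cc s x) + bt e (cc p x) v + (bt e v (cc p x)
      + bt e (cc s x) u) := by
  have h1 := pd_bt e (u := cc p) (v := cc s) (x := x) i (fun s => dcc p s x) (fun t => dcc s t x)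
  have h2 := pd_bt e (u := cc s) (v := cc p) (x := x) i (fun t => dcc s t x) (fun t => dcc p t x)
  rw [hu, hv] at h1 h2
  have h3 : pd i (SS e p s) x = pd i (fun y => bt e (cc p y) (cc s y)) x
      + pd i (fun y => bt e (cc s y) (cc p y)) x := by
    unfold SS
    exact pd_add (differentiableAt_bt e (fun t => dcc p t x) (fun t => dcc s t x))
      (differentiableAt_bt e (fun t => dcc s t x) (fun t => dcc p t x))
  rw [h3, h1, h2]

theorem pd_PP0 (i : Fin 10) (x : Fin 10 → ℝ) :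
    pd i (PP e 0) x = eta12 i x • SS e 0 1 x + eta13 i x • SS e 0 2 x := by
  rw [pd_PP e 0 i x (pd_cc0 i x)]
  simp only [bt_add_left, bt_add_right, bt_smul_left, bt_smul_right, SS, smul_add]
  abel

theorem pd_PP1 (i : Fin 10) (x : Fin 10 → ℝ) :
    pd i (PP e 1) x = (- eta12 i x) • SS e 0 1 x + eta23 i x • SS e 1 2 x := by
  rw [pd_PP e 1 i x (pd_cc1 i x)]
  simp only [bt_add_left, bt_add_right, bt_smul_left, bt_smul_right, SS, smul_add]
  abel

theorem pd_PP2 (i : Fin 10) (x : Fin 10 → ℝ) :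
    pd i (PP e 2) x = (- eta13 i x) • SS e 0 2 x + (- eta23 i x) • SS e 1 2 x := by
  rw [pd_PP e 2 i x (pd_cc2 i x)]
  simp only [bt_add_left, bt_add_right, bt_smul_left, bt_smul_right, SS, smul_add]
  abel

theorem pd_SS01 (i : Fin 10) (x : Fin 10 → ℝ) :
    pd i (SS e 0 1) x = (-2 * eta12 i x) • (PP e 0 x - PP e 1 x) + eta13 i x • SS e 1 2 x
      + eta23 i x • SS e 0 2 x := by
  rw [pd_SS e 0 1 i x (pd_cc0 i x) (pd_cc1 i x)]
  simp only [bt_add_left, bt_add_right, bt_smul_left, bt_smul_right, SS, PP]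
  module

theorem pd_SS02 (i : Fin 10) (x : Fin 10 → ℝ) :
    pd i (SS e 0 2) x = (-2 * eta13 i x) • (PP e 0 x - PP e 2 x) + eta12 i x • SS e 1 2 x
      - eta23 i x • SS e 0 1 x := by
  rw [pd_SS e 0 2 i x (pd_cc0 i x) (pd_cc2 i x)]
  simp only [bt_add_left, bt_add_right, bt_smul_left, bt_smul_right, SS, PP]
  module

theorem pd_SS12 (i : Fin 10) (x : Fin 10 → ℝ) :
    pd i (SS e 1 2) x = (-2 * eta23 i x) • (PP e 1 x - PP e 2 x) - eta12 i x • SS e 0 2 x
      - eta13 i x • SS e 0 1 x := by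
  rw [pd_SS e 1 2 i x (pd_cc1 i x) (pd_cc2 i x)]
  simp only [bt_add_left, bt_add_right, bt_smul_left, bt_smul_right, SS, PP]
  module

/-! ### Torus part -/

/-- The square root of `15`. -/
noncomputable def gg : ℝ := √15

theorem gg_sq : gg ^ 2 = 15 := by
  unfold gg; exact Real.sq_sqrt (by norm_num)

/-- The unit vector in the `j`-th circle plane. -/
noncomputable def ZZ (j : Fin 7) (x : Fin 10 → ℝ) : V :=
  cos (gg * x (rr (Sum.inr j))) • e (Sum.inr (j, 0))
    + sin (gg * x (rr (Sum.inr j))) • e (Sum.inr (j, 1))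

/-- The unit tangent vector of the `j`-th circle. -/
noncomputable def YY (j : Fin 7) (x : Fin 10 → ℝ) : V :=
  (-sin (gg * x (rr (Sum.inr j)))) • e (Sum.inr (j, 0))
    + cos (gg * x (rr (Sum.inr j))) • e (Sum.inr (j, 1))

theorem hasFDerivAt_gg (j : Fin 7) (x : Fin 10 → ℝ) :
    HasFDerivAt (fun y : Fin 10 → ℝ => gg * y (rr (Sum.inr j)))
      (gg • (ContinuousLinearMap.proj (rr (Sum.inr j)) : (Fin 10 → ℝ) →L[ℝ] ℝ)) x :=
  ((ContinuousLinearMap.proj (rr (Sum.inr j)) : (Fin 10 → ℝ) →L[ℝ] ℝ).hasFDerivAt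
    (x := x)).const_mul gg

theorem dZZ (j : Fin 7) (x : Fin 10 → ℝ) : DifferentiableAt ℝ (ZZ e j) x := by
  unfold ZZ; fun_prop

theorem dYY (j : Fin 7) (x : Fin 10 → ℝ) : DifferentiableAt ℝ (YY e j) x := by
  unfold YY; fun_prop

theorem pd_ZZ (j : Fin 7) (i : Fin 10) (x : Fin 10 → ℝ) :
    pd i (ZZ e j) x = (gg * dl (rr (Sum.inr j)) i) • YY e j x := by
  have h1 := (hasFDerivAt_gg j x).cos.smul_const (e (Sum.inr (j, 0)))
  have h2 := (hasFDerivAt_gg j x).sin.smul_const (e (Sum.inr (j, 1)))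
  have h3 := h1.fun_add h2
  have h4 : pd i (ZZ e j) x = _ := congrArg (fun L => L (Pi.single i (1 : ℝ))) h3.fderiv
  rw [h4]
  by_cases h : rr (Sum.inr j) = i
  · subst h
    simp [dl, YY]
    module
  · simp [h, dl]

theorem pd_YY (j : Fin 7) (i : Fin 10) (x : Fin 10 → ℝ) :
    pd i (YY e j) x = (- (gg * dl (rr (Sum.inr j)) i)) • ZZ e j x := by
  have h1 := (hasFDerivAt_gg j x).sin.fun_neg.smul_const (e (Sum.inr (j, 0)))
  have h2 := (hasFDerivAt_gg j x).cos.smul_const (e (Sum.inr (j, 1)))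
  have h3 := h1.fun_add h2
  have h4 : pd i (YY e j) x = _ := congrArg (fun L => L (Pi.single i (1 : ℝ))) h3.fderiv
  rw [h4]
  by_cases h : rr (Sum.inr j) = i
  · subst h
    simp [dl, ZZ]
    module
  · simp [h, dl]

/-! ### Inner products -/

variable {e} (he : ∀ a b, inner ℝ (e a) (e b) = if a = b then (1 : ℝ) else 0)

include he in
theorem inner_PP_PP (p s : Fin 3) (x : Fin 10 → ℝ) :
    inner ℝ (PP e p x) (PP e s x) = if p = s then (1 : ℝ) else 0 := by
  rw [PP, PP, inner_bt e he, cc_orth]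
  split_ifs <;> simp

include he in
theorem inner_PP_SS (p s t : Fin 3) (hst : s ≠ t) (x : Fin 10 → ℝ) :
    inner ℝ (PP e p x) (SS e s t x) = (0 : ℝ) := by
  rw [PP, SS, inner_add_right, inner_bt e he, inner_bt e he, cc_orth, cc_orth]
  by_cases h : p = s
  · by_cases h' : p = t
    · exact absurd (h.symm.trans h') hst
    · simp [h']
  · simp [h]

include he in
theorem inner_SS_SS (p s p' s' : Fin 3) (x : Fin 10 → ℝ) :
    inner ℝ (SS e p s x) (SS e p' s' x) = 2 * ((if p = p' then (1 : ℝ) else 0)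
      * (if s = s' then 1 else 0) + (if p = s' then 1 else 0) * (if s = p' then 1 else 0)) := by
  rw [SS, SS]
  simp only [inner_add_right, inner_add_left, inner_bt e he, cc_orth]
  ring

include he in
theorem inner_PP_ZZ (p : Fin 3) (j : Fin 7) (x : Fin 10 → ℝ) :
    inner ℝ (PP e p x) (ZZ e j x) = (0 : ℝ) := by
  rw [PP, ZZ, inner_add_right, inner_smul_right, inner_smul_right, inner_bt_e e he,
    inner_bt_e e he]
  ring

include he in
theorem inner_PP_YY (p : Fin 3) (j : Fin 7) (x : Fin 10 → ℝ) :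
    inner ℝ (PP e p x) (YY e j x) = (0 : ℝ) := by
  rw [PP, YY, inner_add_right, inner_smul_right, inner_smul_right, inner_bt_e e he,
    inner_bt_e e he]
  ring

include he in
theorem inner_SS_ZZ (p s : Fin 3) (j : Fin 7) (x : Fin 10 → ℝ) :
    inner ℝ (SS e p s x) (ZZ e j x) = (0 : ℝ) := by
  rw [SS, ZZ]
  simp only [inner_add_right, inner_add_left, inner_smul_right, inner_bt_e e he]
  ring

include he in
theorem inner_SS_YY (p s : Fin 3) (j : Fin 7) (x : Fin 10 → ℝ) :
    inner ℝ (SS e p s x) (YY e j x) = (0 : ℝ) := by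
  rw [SS, YY]
  simp only [inner_add_right, inner_add_left, inner_smul_right, inner_bt_e e he]
  ring

include he in
theorem inner_ZZ_ZZ (j l : Fin 7) (x : Fin 10 → ℝ) :
    inner ℝ (ZZ e j x) (ZZ e l x) = if j = l then (1 : ℝ) else 0 := by
  rw [ZZ, ZZ]
  simp only [inner_add_right, inner_add_left, inner_smul_right, inner_smul_left, he]
  by_cases h : j = l
  · subst h
    simp
    nlinarith [sin_sq_add_cos_sq (gg * x (rr (Sum.inr j)))]
  · simp [h]

include he in
theorem inner_YY_YY (j l : Fin 7) (x : Fin 10 → ℝ) :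
    inner ℝ (YY e j x) (YY e l x) = if j = l then (1 : ℝ) else 0 := by
  rw [YY, YY]
  simp only [inner_add_right, inner_add_left, inner_smul_right, inner_smul_left, he]
  by_cases h : j = l
  · subst h
    simp
    nlinarith [sin_sq_add_cos_sq (gg * x (rr (Sum.inr j)))]
  · simp [h]

include he in
theorem inner_YY_ZZ (j l : Fin 7) (x : Fin 10 → ℝ) :
    inner ℝ (YY e j x) (ZZ e l x) = (0 : ℝ) := by
  rw [YY, ZZ]
  simp only [inner_add_right, inner_add_left, inner_smul_right, inner_smul_left, he]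
  by_cases h : j = l
  · subst h
    simp
    ring
  · simp [h]

end Pool.Agent.Q186.BH
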