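import Pool.Agent.Q186.BH.ExB

/-!
# The example: assembling the frame (auxiliary)
-/

namespace Pool.Agent.Q186.BH

open Finset Filter Topology Real

variable {V : Type*} [NormedAddCommGroup V] [InnerProductSpace ℝ V]

/-- The square root of `2`. -/
noncomputable def q2 : ℝ := √2
/-- The square root of `5`. -/
noncomputable def r5 : ℝ := √5

theorem q2_sq : q2 ^ 2 = 2 := by unfold q2; exact Real.sq_sqrt (by norm_num)
theorem r5_sq : r5 ^ 2 = 5 := by unfold r5; exact Real.sq_sqrt (by norm_num)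
theorem r5_cb : r5 ^ 3 = 5 * r5 := by rw [pow_succ, r5_sq]
theorem r5_4 : r5 ^ 4 = 25 := by
  have : r5 ^ 4 = (r5 ^ 2) ^ 2 := by ring
  rw [this, r5_sq]; norm_num

/-- Frame vectors. -/
noncomputable def fF (e : Iot → V) : Kap → (Fin 10 → ℝ) → V
  | Sum.inl 0 => fun x => (q2 / 2) • SS e 0 1 x
  | Sum.inl 1 => fun x => (q2 / 2) • SS e 0 2 x
  | Sum.inl 2 => fun x => (q2 / 2) • SS e 1 2 x
  | Sum.inr j => fun x => YY e j x

/-- Normal vectors. -/
noncomputable def kF (e : Iot → V) : Kap → (Fin 10 → ℝ) → V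
  | Sum.inl 0 => fun x => (-(q2 * r5 / 2)) • (PP e 0 x - PP e 1 x)
  | Sum.inl 1 => fun x => (-(q2 * r5 * (r5 - 1) / 4)) • (PP e 0 x - PP e 2 x)
  | Sum.inl 2 => fun x => (-(q2 * r5 * (r5 + 1) / 4)) • (PP e 1 x - PP e 2 x)
  | Sum.inr j => fun x => (- gg) • ZZ e j x

/-- The immersion. -/
noncomputable def phi (e : Iot → V) (x : Fin 10 → ℝ) : V :=
  (q2 * r5 * (r5 + 3) / 30) • PP e 0 x + (q2 * r5 * (r5 - 3) / 30) • PP e 1 x
    + (- q2 / 3) • PP e 2 x + ∑ j, (gg / 15) • ZZ e j x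

/-- Coframe matrix. -/
noncomputable def TF : Kap → Fin 10 → (Fin 10 → ℝ) → ℝ
  | Sum.inl 0 => fun i x => (2 * r5 / 5) * eta12 i x
  | Sum.inl 1 => fun i x => (1 + r5 / 5) * eta13 i x
  | Sum.inl 2 => fun i x => (1 - r5 / 5) * eta23 i x
  | Sum.inr j => fun i _ => dl (rr (Sum.inr j)) i

/-- Connection constants. -/
noncomputable def wF : Kap → Kap → Kap → ℝ
  | Sum.inl 0, Sum.inl 1, Sum.inl 2 => r5 * (r5 + 1) / 4
  | Sum.inl 0, Sum.inl 2, Sum.inl 1 => r5 * (r5 - 1) / 4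
  | Sum.inl 1, Sum.inl 0, Sum.inl 2 => -(r5 * (r5 + 1) / 4)
  | Sum.inl 1, Sum.inl 2, Sum.inl 0 => r5 / 2
  | Sum.inl 2, Sum.inl 0, Sum.inl 1 => -(r5 * (r5 - 1) / 4)
  | Sum.inl 2, Sum.inl 1, Sum.inl 0 => -(r5 / 2)
  | _, _, _ => 0

/-- Gram constants of the normal vectors. -/
noncomputable def KF : Kap → Kap → ℝ
  | Sum.inl 0, Sum.inl 0 => 5
  | Sum.inl 0, Sum.inl 1 => 5 * (r5 - 1) / 4
  | Sum.inl 0, Sum.inl 2 => -(5 * (r5 + 1) / 4)
  | Sum.inl 1, Sum.inl 0 => 5 * (r5 - 1) / 4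
  | Sum.inl 1, Sum.inl 1 => (15 - 5 * r5) / 2
  | Sum.inl 1, Sum.inl 2 => 5 / 2
  | Sum.inl 2, Sum.inl 0 => -(5 * (r5 + 1) / 4)
  | Sum.inl 2, Sum.inl 1 => 5 / 2
  | Sum.inl 2, Sum.inl 2 => (15 + 5 * r5) / 2
  | Sum.inr j, Sum.inr l => if j = l then 15 else 0
  | _, _ => 0

/-- Inverse coframe matrix. -/
noncomputable def NF : Kap → Kap → (Fin 10 → ℝ) → ℝ
  | Sum.inl 0, Sum.inl 0 => fun x => (r5 / 2) * (cos (x 2) / cos (x 1))
  | Sum.inl 1, Sum.inl 0 => fun x => (r5 / 2) * sin (x 2)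
  | Sum.inl 2, Sum.inl 0 => fun x => (r5 / 2) * (-(sin (x 1) * cos (x 2)) / cos (x 1))
  | Sum.inl 0, Sum.inl 1 => fun x => (r5 * (r5 - 1) / 4) * (- sin (x 2) / cos (x 1))
  | Sum.inl 1, Sum.inl 1 => fun x => (r5 * (r5 - 1) / 4) * cos (x 2)
  | Sum.inl 2, Sum.inl 1 => fun x => (r5 * (r5 - 1) / 4) * (sin (x 1) * sin (x 2) / cos (x 1))
  | Sum.inl 2, Sum.inl 2 => fun _ => r5 * (r5 + 1) / 4
  | Sum.inr j, Sum.inr l => fun _ => if j = l then 1 else 0
  | _, _ => fun _ => 0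

theorem wanti (a b c : Kap) : wF a b c = - wF b a c := by
  rcases a with a | a <;> rcases b with b | b <;> rcases c with c | c <;>
    fin_cases a <;> fin_cases b <;> fin_cases c <;> simp [wF]

theorem wdiag (a b : Kap) : wF a b b = 0 := by
  rcases a with a | a <;> rcases b with b | b <;>
    fin_cases a <;> fin_cases b <;> simp [wF]

theorem rr0 : rr (Sum.inl 0) = 0 := rfl
theorem rr1 : rr (Sum.inl 1) = 1 := rfl
theorem rr2 : rr (Sum.inl 2) = 2 := rfl

theorem dl_rr (a b : Kap) : dl (rr a) (rr b) = if a = b then 1 else 0 := by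
  unfold dl
  simp only [rr.injective.eq_iff]

theorem dl0 (b : Kap) : dl 0 (rr b) = if Sum.inl 0 = b then 1 else 0 := by
  rw [← rr0, dl_rr]
theorem dl1 (b : Kap) : dl 1 (rr b) = if Sum.inl 1 = b then 1 else 0 := by
  rw [← rr1, dl_rr]
theorem dl2 (b : Kap) : dl 2 (rr b) = if Sum.inl 2 = b then 1 else 0 := by
  rw [← rr2, dl_rr]

theorem TF_inl_inr (p : Fin 3) (j : Fin 7) (x : Fin 10 → ℝ) :
    TF (Sum.inl p) (rr (Sum.inr j)) x = 0 := by
  fin_cases p <;> simp [TF, eta12, eta13, eta23, dl0, dl1, dl2]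

theorem TF_inr (j : Fin 7) (b : Kap) (x : Fin 10 → ℝ) :
    TF (Sum.inr j) (rr b) x = if Sum.inr j = b then 1 else 0 := by
  simp [TF, dl_rr]

theorem TS_aux (x : Fin 10 → ℝ) (hx : cos (x 1) ≠ 0) (a b : Kap) :
    ∑ s, TF a (rr s) x * NF s b x = if a = b then 1 else 0 := by
  rw [Fintype.sum_sum_type]
  have hr := r5_sq
  have h2 := sin_sq_add_cos_sq (x 2)
  rcases a with a | a <;> rcases b with b | b
  · have z : ∑ j : Fin 7, TF (Sum.inl a) (rr (Sum.inr j)) x * NF (Sum.inr j) (Sum.inl b) x = 0 :=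
      Finset.sum_eq_zero fun j _ => by rw [TF_inl_inr, zero_mul]
    rw [z, add_zero, Fin.sum_univ_three]
    fin_cases a <;> fin_cases b <;>
      simp [TF, NF, eta12, eta13, eta23, dl0, dl1, dl2]
    all_goals (field_simp; try ring_nf; try simp only [cos_sq', r5_sq, r5_cb]; try ring_nf)
  · rw [Fin.sum_univ_three]
    simp [NF, TF_inl_inr]
  · simp [NF, TF_inr]
  · rw [Fin.sum_univ_three]
    simp [NF, TF_inr, Sum.inr_injective.eq_iff]

theorem ST_aux (x : Fin 10 → ℝ) (hx : cos (x 1) ≠ 0) (s s' : Kap) :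
    ∑ a, NF s a x * TF a (rr s') x = if s = s' then 1 else 0 := by
  have hcard : Fintype.card Kap = Fintype.card Kap := rfl
  set A : Matrix Kap Kap ℝ := Matrix.of fun a s => TF a (rr s) x with hA
  set B : Matrix Kap Kap ℝ := Matrix.of fun s b => NF s b x with hB
  have h1 : A * B = 1 := by
    ext a b
    rw [Matrix.mul_apply, Matrix.one_apply]
    exact TS_aux x hx a b
  have h2 : B * A = 1 := mul_eq_one_comm.mp h1
  have h3 := congrFun (congrFun h2 s) s'
  rw [Matrix.mul_apply, Matrix.one_apply] at h3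
  exact h3

theorem wF_inr1 (a : Fin 7) (b c : Kap) : wF (Sum.inr a) b c = 0 := by
  rcases b with b | b <;> rcases c with c | c <;> rfl
theorem wF_inr2 (a : Kap) (b : Fin 7) (c : Kap) : wF a (Sum.inr b) c = 0 := by
  rcases a with a | a
  · fin_cases a <;> rcases c with c | c <;> rfl
  · rfl
theorem wF_inr3 (a b : Kap) (c : Fin 7) : wF a b (Sum.inr c) = 0 := by
  rcases a with a | a <;> rcases b with b | b
  · fin_cases a <;> fin_cases b <;> rfl
  · exact wF_inr2 _ _ _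
  · rfl
  · rfl
theorem KF_inl_inr (a : Fin 3) (b : Fin 7) : KF (Sum.inl a) (Sum.inr b) = 0 := by
  fin_cases a <;> rfl
theorem KF_inr_inl (b : Fin 7) (a : Fin 3) : KF (Sum.inr b) (Sum.inl a) = 0 := by
  fin_cases a <;> rfl

variable (e : Iot → V)

theorem dfF (a : Kap) (x : Fin 10 → ℝ) : DifferentiableAt ℝ (fF e a) x := by
  rcases a with a | a
  · fin_cases a
    · exact (dSS e 0 1 x).const_smul _
    · exact (dSS e 0 2 x).const_smul _
    · exact (dSS e 1 2 x).const_smul _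
  · exact dYY e a x

theorem dkF (a : Kap) (x : Fin 10 → ℝ) : DifferentiableAt ℝ (kF e a) x := by
  rcases a with a | a
  · fin_cases a
    · exact ((dPP e 0 x).sub (dPP e 1 x)).const_smul _
    · exact ((dPP e 0 x).sub (dPP e 2 x)).const_smul _
    · exact ((dPP e 1 x).sub (dPP e 2 x)).const_smul _
  · exact (dZZ e a x).const_smul _

theorem dTF (a : Kap) (i : Fin 10) (x : Fin 10 → ℝ) : DifferentiableAt ℝ (TF a i) x := by
  rcases a with a | a
  · fin_cases a
    · change DifferentiableAt ℝ (fun y => (2 * r5 / 5) * eta12 i y) x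
      unfold eta12; fun_prop
    · change DifferentiableAt ℝ (fun y => (1 + r5 / 5) * eta13 i y) x
      unfold eta13; fun_prop
    · change DifferentiableAt ℝ (fun y => (1 - r5 / 5) * eta23 i y) x
      unfold eta23; fun_prop
  · exact differentiableAt_const _

theorem dNF (s b : Kap) (x : Fin 10 → ℝ) (hx : cos (x 1) ≠ 0) :
    DifferentiableAt ℝ (NF s b) x := by
  rcases s with s | s <;> rcases b with b | b
  · fin_cases s <;> fin_cases b <;> simp only [NF] <;> fun_prop (disch := exact hx)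
  · fin_cases s <;> exact differentiableAt_const _
  · exact differentiableAt_const _
  · exact differentiableAt_const _

theorem pd_sub'' {m : ℕ} {i : Fin m} {f g : (Fin m → ℝ) → V} {x : Fin m → ℝ}
    (hf : DifferentiableAt ℝ f x) (hg : DifferentiableAt ℝ g x) :
    pd i (fun y => f y - g y) x = pd i f x - pd i g x := by
  unfold pd
  rw [fderiv_fun_sub hf hg]; rfl

theorem pphi (i : Fin 10) (x : Fin 10 → ℝ) :
    pd i (phi e) x = ∑ a, TF a i x • fF e a x := by
  have h1 : pd i (phi e) x = (q2 * r5 * (r5 + 3) / 30) • pd i (PP e 0) x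
      + (q2 * r5 * (r5 - 3) / 30) • pd i (PP e 1) x + (- q2 / 3) • pd i (PP e 2) x
      + ∑ j, (gg / 15) • pd i (ZZ e j) x := by
    unfold phi
    have d0 := (dPP e 0 x).fun_const_smul (q2 * r5 * (r5 + 3) / 30)
    have d1 := (dPP e 1 x).fun_const_smul (q2 * r5 * (r5 - 3) / 30)
    have d2 := (dPP e 2 x).fun_const_smul (- q2 / 3)
    have d3 : ∀ j, DifferentiableAt ℝ (fun y => (gg / 15) • ZZ e j y) x :=
      fun j => (dZZ e j x).fun_const_smul _
    rw [pd_add ((d0.fun_add d1).fun_add d2) (DifferentiableAt.fun_sum fun j _ => d3 j),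
      pd_add (d0.fun_add d1) d2, pd_add d0 d1, pd_sum _ (fun j _ => d3 j),
      pd_const_smul _ (dPP e 0 x), pd_const_smul _ (dPP e 1 x), pd_const_smul _ (dPP e 2 x)]
    congr 1
    exact sum_congr rfl fun j _ => pd_const_smul _ (dZZ e j x)
  have h2 : ∑ j, (gg / 15) • pd i (ZZ e j) x
      = ∑ j, TF (Sum.inr j) i x • fF e (Sum.inr j) x := by
    refine sum_congr rfl fun j _ => ?_
    rw [pd_ZZ, smul_smul]
    change _ = dl (rr (Sum.inr j)) i • YY e j x
    congr 1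
    have := gg_sq
    linear_combination (dl (rr (Sum.inr j)) i / 15) * this
  rw [h1, h2, Fintype.sum_sum_type, pd_PP0, pd_PP1, pd_PP2, Fin.sum_univ_three]
  congr 1
  change _ = ((2 * r5 / 5) * eta12 i x) • ((q2 / 2) • SS e 0 1 x)
    + ((1 + r5 / 5) * eta13 i x) • ((q2 / 2) • SS e 0 2 x)
    + ((1 - r5 / 5) * eta23 i x) • ((q2 / 2) • SS e 1 2 x)
  match_scalars
  · ring_nf
  · ring_nf; simp only [r5_sq]; ring_nf
  · ring_nf; simp only [r5_sq]; ring_nf

end Pool.Agent.Q186.BH
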