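import Pool.Agent.Q186.BH.ExC

/-!
# The example: the structure equations and inner products (auxiliary)
-/

namespace Pool.Agent.Q186.BH

open Finset Filter Topology Real

variable {V : Type*} [NormedAddCommGroup V] [InnerProductSpace ℝ V]

variable (e : Iot → V)

theorem pfF (i : Fin 10) (a : Kap) (x : Fin 10 → ℝ) :
    pd i (fF e a) x = ∑ b, (∑ c, wF a b c * TF c i x) • fF e b x + TF a i x • kF e a x := by
  have hfin : ∀ b, ∑ c, wF a b c * TF c i x = ∑ c : Fin 3, wF a b (Sum.inl c) * TF (Sum.inl c) i x := by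
    intro b
    rw [Fintype.sum_sum_type]
    simp [wF_inr3]
  rw [Fintype.sum_sum_type]
  have h0 : ∑ b : Fin 7, (∑ c, wF a (Sum.inr b) c * TF c i x) • fF e (Sum.inr b) x = 0 :=
    sum_eq_zero fun b _ => by simp [wF_inr2]
  rw [h0, add_zero]
  simp only [hfin, Fin.sum_univ_three]
  rcases a with a | a
  · fin_cases a
    · change pd i (fun y => (q2 / 2) • SS e 0 1 y) x = _
      rw [pd_const_smul _ (dSS e 0 1 x), pd_SS01]
      simp only [wF, TF, fF, kF, Fin.zero_eta]
      match_scalars
      all_goals (ring_nf; try simp only [r5_sq, r5_cb, r5_4]; try ring_nf)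
    · change pd i (fun y => (q2 / 2) • SS e 0 2 y) x = _
      rw [pd_const_smul _ (dSS e 0 2 x), pd_SS02]
      simp only [wF, TF, fF, kF, Fin.mk_one]
      match_scalars
      all_goals (ring_nf; try simp only [r5_sq, r5_cb, r5_4]; try ring_nf)
    · change pd i (fun y => (q2 / 2) • SS e 1 2 y) x = _
      rw [pd_const_smul _ (dSS e 1 2 x), pd_SS12]
      simp only [wF, TF, fF, kF, Fin.reduceFinMk]
      match_scalars
      all_goals (ring_nf; try simp only [r5_sq, r5_cb, r5_4]; try ring_nf)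
  · change pd i (YY e a) x = _
    rw [pd_YY]
    simp only [wF_inr1, zero_mul, add_zero, zero_smul, zero_add]
    change _ = dl (rr (Sum.inr a)) i • ((- gg) • ZZ e a x)
    module

theorem pkF (i : Fin 10) (a : Kap) (x : Fin 10 → ℝ) :
    pd i (kF e a) x = - ∑ b, (KF a b * TF b i x) • fF e b x := by
  rw [Fintype.sum_sum_type]
  rcases a with a | a
  · have h0 : ∑ b : Fin 7, (KF (Sum.inl a) (Sum.inr b) * TF (Sum.inr b) i x) • fF e (Sum.inr b) x
        = 0 := sum_eq_zero fun b _ => by simp [KF_inl_inr]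
    rw [h0, add_zero, Fin.sum_univ_three]
    fin_cases a
    · change pd i (fun y => (-(q2 * r5 / 2)) • (PP e 0 y - PP e 1 y)) x = _
      rw [pd_const_smul _ ((dPP e 0 x).fun_sub (dPP e 1 x)), pd_sub'' (dPP e 0 x) (dPP e 1 x),
        pd_PP0, pd_PP1]
      simp only [KF, TF, fF, Fin.zero_eta]
      match_scalars
      all_goals (ring_nf; try simp only [r5_sq, r5_cb, r5_4]; try ring_nf)
    · change pd i (fun y => (-(q2 * r5 * (r5 - 1) / 4)) • (PP e 0 y - PP e 2 y)) x = _
      rw [pd_const_smul _ ((dPP e 0 x).fun_sub (dPP e 2 x)), pd_sub'' (dPP e 0 x) (dPP e 2 x),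
        pd_PP0, pd_PP2]
      simp only [KF, TF, fF, Fin.mk_one]
      match_scalars
      all_goals (ring_nf; try simp only [r5_sq, r5_cb, r5_4]; try ring_nf)
    · change pd i (fun y => (-(q2 * r5 * (r5 + 1) / 4)) • (PP e 1 y - PP e 2 y)) x = _
      rw [pd_const_smul _ ((dPP e 1 x).fun_sub (dPP e 2 x)), pd_sub'' (dPP e 1 x) (dPP e 2 x),
        pd_PP1, pd_PP2]
      simp only [KF, TF, fF, Fin.reduceFinMk]
      match_scalars
      all_goals (ring_nf; try simp only [r5_sq, r5_cb, r5_4]; try ring_nf)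
  · have h0 : ∑ b : Fin 3, (KF (Sum.inr a) (Sum.inl b) * TF (Sum.inl b) i x) • fF e (Sum.inl b) x
        = 0 := sum_eq_zero fun b _ => by simp [KF_inr_inl]
    rw [h0, zero_add]
    have h1 : ∑ b : Fin 7, (KF (Sum.inr a) (Sum.inr b) * TF (Sum.inr b) i x) • fF e (Sum.inr b) x
        = (15 * dl (rr (Sum.inr a)) i) • YY e a x := by
      simp [KF, TF, fF]
    rw [h1]
    change pd i (fun y => (- gg) • ZZ e a y) x = _
    rw [pd_const_smul _ (dZZ e a x), pd_ZZ, smul_smul, ← neg_smul]
    congr 1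
    have := gg_sq
    linear_combination (- dl (rr (Sum.inr a)) i) * this

variable {e} (he : ∀ a b, inner ℝ (e a) (e b) = if a = b then (1 : ℝ) else 0)

theorem ZZ_SS (he : ∀ a b, inner ℝ (e a) (e b) = if a = b then (1 : ℝ) else 0)
    (j : Fin 7) (p s : Fin 3) (x : Fin 10 → ℝ) :
    inner ℝ (ZZ e j x) (SS e p s x) = (0 : ℝ) := by
  rw [real_inner_comm, inner_SS_ZZ he]
theorem YY_SS (he : ∀ a b, inner ℝ (e a) (e b) = if a = b then (1 : ℝ) else 0)
    (j : Fin 7) (p s : Fin 3) (x : Fin 10 → ℝ) :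
    inner ℝ (YY e j x) (SS e p s x) = (0 : ℝ) := by
  rw [real_inner_comm, inner_SS_YY he]
theorem ZZ_PP (he : ∀ a b, inner ℝ (e a) (e b) = if a = b then (1 : ℝ) else 0)
    (j : Fin 7) (p : Fin 3) (x : Fin 10 → ℝ) :
    inner ℝ (ZZ e j x) (PP e p x) = (0 : ℝ) := by
  rw [real_inner_comm, inner_PP_ZZ he]
theorem YY_PP (he : ∀ a b, inner ℝ (e a) (e b) = if a = b then (1 : ℝ) else 0)
    (j : Fin 7) (p : Fin 3) (x : Fin 10 → ℝ) :
    inner ℝ (YY e j x) (PP e p x) = (0 : ℝ) := by
  rw [real_inner_comm, inner_PP_YY he]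
theorem SS_PP (he : ∀ a b, inner ℝ (e a) (e b) = if a = b then (1 : ℝ) else 0)
    (p s t : Fin 3) (hst : s ≠ t) (x : Fin 10 → ℝ) :
    inner ℝ (SS e s t x) (PP e p x) = (0 : ℝ) := by
  rw [real_inner_comm, inner_PP_SS he p s t hst]

theorem ffF (he : ∀ a b, inner ℝ (e a) (e b) = if a = b then (1 : ℝ) else 0)
    (a b : Kap) (x : Fin 10 → ℝ) :
    inner ℝ (fF e a x) (fF e b x) = if a = b then (1 : ℝ) else 0 := by
  have hq := q2_sq
  rcases a with a | a <;> rcases b with b | b
  · fin_cases a <;> fin_cases b <;>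
      simp only [fF, inner_smul_left, inner_smul_right, inner_SS_SS he, RCLike.conj_to_real] <;>
      simp
    all_goals (ring_nf; simp only [q2_sq]; ring_nf)
  · fin_cases a <;> simp [fF, inner_smul_left, inner_SS_YY he]
  · fin_cases b <;> simp [fF, inner_smul_right, YY_SS he]
  · simp [fF, inner_YY_YY he]

theorem fkF (he : ∀ a b, inner ℝ (e a) (e b) = if a = b then (1 : ℝ) else 0)
    (a b : Kap) (x : Fin 10 → ℝ) :
    inner ℝ (fF e a x) (kF e b x) = (0 : ℝ) := by
  rcases a with a | a <;> rcases b with b | b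
  · fin_cases a <;> fin_cases b <;>
      simp [fF, kF, inner_smul_left, inner_smul_right, inner_sub_right, SS_PP he]
  · fin_cases a <;> simp [fF, kF, inner_smul_left, inner_smul_right, inner_SS_ZZ he]
  · fin_cases b <;> simp [fF, kF, inner_smul_right, inner_sub_right, YY_PP he]
  · simp [fF, kF, inner_smul_right, inner_YY_ZZ he]

theorem fphi (he : ∀ a b, inner ℝ (e a) (e b) = if a = b then (1 : ℝ) else 0)
    (a : Kap) (x : Fin 10 → ℝ) :
    inner ℝ (fF e a x) (phi e x) = (0 : ℝ) := by
  rcases a with a | a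
  · fin_cases a <;>
      simp [fF, phi, inner_smul_left, inner_smul_right, inner_add_right, inner_sum, SS_PP he,
        inner_SS_ZZ he]
  · simp [fF, phi, inner_smul_right, inner_add_right, inner_sum, YY_PP he, inner_YY_ZZ he]

theorem kphi (he : ∀ a b, inner ℝ (e a) (e b) = if a = b then (1 : ℝ) else 0)
    (a : Kap) (x : Fin 10 → ℝ) :
    inner ℝ (kF e a x) (phi e x) = (-1 : ℝ) := by
  have hg := gg_sq
  rcases a with a | a
  · fin_cases a
    all_goals
      simp only [kF, phi, inner_smul_left, inner_smul_right, inner_add_right, inner_sub_left,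
        inner_sum, inner_PP_PP he, inner_PP_ZZ he, RCLike.conj_to_real]
      simp
      ring_nf
      simp only [q2_sq, r5_sq, r5_cb, r5_4]
      ring_nf
  · simp only [kF, phi, inner_smul_left, inner_smul_right, inner_add_right, inner_sum, ZZ_PP he,
      inner_ZZ_ZZ he, RCLike.conj_to_real]
    simp
    linear_combination hg / 15

theorem phiphi (he : ∀ a b, inner ℝ (e a) (e b) = if a = b then (1 : ℝ) else 0)
    (x : Fin 10 → ℝ) :
    inner ℝ (phi e x) (phi e x) = (1 : ℝ) := by
  have hg := gg_sq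
  simp only [phi, inner_smul_left, inner_smul_right, inner_add_right, inner_add_left,
        inner_sum, sum_inner, inner_PP_PP he, inner_PP_ZZ he, ZZ_PP he, inner_ZZ_ZZ he]
  simp
  ring_nf
  simp only [q2_sq, r5_sq, r5_cb, r5_4, gg_sq]
  ring_nf

theorem kkF (he : ∀ a b, inner ℝ (e a) (e b) = if a = b then (1 : ℝ) else 0)
    (a b : Kap) (x : Fin 10 → ℝ) :
    inner ℝ (kF e a x) (kF e b x) = KF a b := by
  have hg := gg_sq
  rcases a with a | a <;> rcases b with b | b
  · fin_cases a <;> fin_cases b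
    all_goals
      simp only [kF, KF, inner_smul_left, inner_smul_right, inner_sub_right, inner_sub_left,
        inner_PP_PP he, RCLike.conj_to_real]
      simp
      ring_nf
      simp only [q2_sq, r5_sq, r5_cb, r5_4]
      ring_nf
  · fin_cases a <;> simp [kF, KF, inner_smul_left, inner_smul_right, inner_sub_left,
      inner_PP_ZZ he]
  · fin_cases b <;> simp [kF, KF, inner_smul_left, inner_smul_right, inner_sub_right,
      ZZ_PP he]
  · simp only [kF, KF, inner_smul_right, inner_smul_left, inner_ZZ_ZZ he, RCLike.conj_to_real]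
    by_cases h : a = b
    · simp only [h, if_true]
      linear_combination hg
    · simp [h]

end Pool.Agent.Q186.BH
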