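import Pool.Agent.Q186.BH.ExD

/-!
# The example: conclusion (auxiliary)
-/

namespace Pool.Agent.Q186.BH

open Finset Filter Topology Real

variable {V : Type*} [NormedAddCommGroup V] [InnerProductSpace ℝ V]

/-- The domain of the example. -/
def UU : Set (Fin 10 → ℝ) := {x | -(π / 2) < x 1 ∧ x 1 < π / 2}

theorem isOpen_UU : IsOpen UU := by
  unfold UU
  exact (isOpen_lt continuous_const (continuous_apply 1)).inter
    (isOpen_lt (continuous_apply 1) continuous_const)

theorem cos_ne {x : Fin 10 → ℝ} (hx : x ∈ UU) : cos (x 1) ≠ 0 :=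
  (Real.cos_pos_of_mem_Ioo ⟨hx.1, hx.2⟩).ne'

theorem convex_UU : Convex ℝ UU := by
  intro x hx y hy a b ha hb hab
  have h1 : (a • x + b • y) 1 = a * x 1 + b * y 1 := rfl
  have key : ∀ s t : ℝ, -(π / 2) < s → s < π / 2 → -(π / 2) < t → t < π / 2 →
      -(π / 2) < a * s + b * t ∧ a * s + b * t < π / 2 := by
    intro s t h1 h2 h3 h4
    have := (convex_Ioo (-(π / 2)) (π / 2)) (show s ∈ Set.Ioo (-(π / 2)) (π / 2) from ⟨h1, h2⟩)
      (show t ∈ Set.Ioo (-(π / 2)) (π / 2) from ⟨h3, h4⟩) ha hb hab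
    exact ⟨this.1, this.2⟩
  change -(π / 2) < (a • x + b • y) 1 ∧ (a • x + b • y) 1 < π / 2
  rw [h1]
  exact key _ _ hx.1 hx.2 hy.1 hy.2

theorem nonempty_UU : UU.Nonempty :=
  ⟨0, by simp [UU, Real.pi_pos]⟩

theorem isConnected_UU : IsConnected UU := ⟨nonempty_UU, convex_UU.isPreconnected⟩

variable (e : Iot → V)

theorem contDiff_cc (p s : Fin 3) : ContDiff ℝ (⊤ : ℕ∞) (fun x : Fin 10 → ℝ => cc p x s) := by
  fin_cases p <;> fin_cases s <;> simp [cc] <;> fun_prop

theorem contDiff_PP (p : Fin 3) : ContDiff ℝ (⊤ : ℕ∞) (PP e p) := by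
  unfold PP bt
  refine ContDiff.sum fun s _ => ContDiff.sum fun t _ => ?_
  exact ((contDiff_cc p s).mul (contDiff_cc p t)).smul contDiff_const

theorem contDiff_ZZ (j : Fin 7) : ContDiff ℝ (⊤ : ℕ∞) (ZZ e j) := by
  unfold ZZ; fun_prop

theorem contDiff_phi : ContDiff ℝ (⊤ : ℕ∞) (phi e) := by
  unfold phi
  have h0 := contDiff_PP e 0
  have h1 := contDiff_PP e 1
  have h2 := contDiff_PP e 2
  refine (((h0.const_smul _).add (h1.const_smul _)).add (h2.const_smul _)).add ?_
  exact ContDiff.sum fun j _ => (contDiff_ZZ e j).const_smul _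

/-- The frame data of the example. -/
noncomputable def FE (he : ∀ a b, inner ℝ (e a) (e b) = if a = b then (1 : ℝ) else 0) :
    Frame UU (phi e) Kap where
  f := fF e
  k := kF e
  T := TF
  S := fun i b => NF (rr.symm i) b
  w := wF
  K := KF
  hU := isOpen_UU
  smooth := (contDiff_phi e).contDiffOn
  unit := fun x _ => phiphi he x
  df := fun a x _ => dfF e a x
  dk := fun a x _ => dkF e a x
  dT := fun a i x _ => dTF a i x
  dS := fun i a x hx => dNF _ a x (cos_ne hx)
  TS := fun x hx a b => by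
    rw [← TS_aux x (cos_ne hx) a b, ← Equiv.sum_comp rr]
    simp
  ST := fun x hx i j => by
    have h := ST_aux x (cos_ne hx) (rr.symm i) (rr.symm j)
    simpa using h
  pφ := fun x _ i => pphi e i x
  pf := fun x _ i a => pfF e i a x
  pk := fun x _ i a => pkF e i a x
  ff := fun x _ a b => ffF he a b x
  fk := fun x _ a b => fkF he a b x
  fφ := fun x _ a => fphi he a x
  kφ := fun x _ a => kphi he a x
  kk := fun x _ a b => kkF he a b x
  card := by simp [Kap]
  wanti := wanti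
  wdiag := wdiag

variable {e} (he : ∀ a b, inner ℝ (e a) (e b) = if a = b then (1 : ℝ) else 0)

theorem t0 : (FE e he).t (Sum.inl 0) = -15 / 2 := by
  change ∑ a, KF a (Sum.inl 0) - ((10 : ℕ) : ℝ) = _
  rw [Fintype.sum_sum_type]
  simp only [sum_const_zero, Fin.sum_univ_three, KF]
  norm_num
  ring

theorem t1 : (FE e he).t (Sum.inl 1) = -(5 / 4) - 5 / 4 * r5 := by
  change ∑ a, KF a (Sum.inl 1) - ((10 : ℕ) : ℝ) = _
  rw [Fintype.sum_sum_type]
  simp only [sum_const_zero, Fin.sum_univ_three, KF]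
  norm_num
  ring

theorem t2 : (FE e he).t (Sum.inl 2) = -(5 / 4) + 5 / 4 * r5 := by
  change ∑ a, KF a (Sum.inl 2) - ((10 : ℕ) : ℝ) = _
  rw [Fintype.sum_sum_type]
  simp only [sum_const_zero, Fin.sum_univ_three, KF]
  norm_num
  ring

theorem tj (j : Fin 7) : (FE e he).t (Sum.inr j) = 5 := by
  change ∑ a, KF a (Sum.inr j) - ((10 : ℕ) : ℝ) = _
  rw [Fintype.sum_sum_type]
  simp only [sum_const_zero, KF]
  simp
  norm_num

include he in
theorem biharm : IsBiharmonic UU (phi e) := by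
  intro x hx
  rw [(FE e he).bitension_eq (by norm_num) hx]
  have h1 : ∑ b, (- (FE e he).t b) • ((FE e he).k b x + phi e x) + ((10 : ℕ) : ℝ) • (FE e he).τ x
      = ∑ b, (10 - (FE e he).t b) • (kF e b x + phi e x) := by
    rw [Frame.τ, smul_sum, ← sum_add_distrib]
    refine sum_congr rfl fun b _ => ?_
    change (- (FE e he).t b) • (kF e b x + phi e x) + ((10 : ℕ) : ℝ) • (kF e b x + phi e x) = _
    rw [← add_smul]
    congr 1
    push_cast
    ring
  rw [h1, Fintype.sum_sum_type, Fin.sum_univ_three, t0, t1, t2]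
  simp only [tj]
  have h2 : ∑ j : Fin 7, ((10 : ℝ) - 5) • (kF e (Sum.inr j) x + phi e x)
      = (-(5 * gg)) • ∑ j, ZZ e j x + (35 : ℝ) • phi e x := by
    simp only [smul_add, sum_add_distrib, smul_sum]
    congr 1
    · refine sum_congr rfl fun j _ => ?_
      change ((10 : ℝ) - 5) • ((- gg) • ZZ e j x) = _
      module
    · rw [sum_const, card_univ, Fintype.card_fin, ← Nat.cast_smul_eq_nsmul ℝ, smul_smul]
      norm_num
  have h3 : phi e x = (q2 * r5 * (r5 + 3) / 30) • PP e 0 x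
      + (q2 * r5 * (r5 - 3) / 30) • PP e 1 x + (- q2 / 3) • PP e 2 x
      + (gg / 15) • ∑ j, ZZ e j x := by
    rw [phi, smul_sum]
  rw [h2, h3]
  simp only [kF]
  match_scalars
  all_goals (ring_nf; try simp only [r5_sq, r5_cb]; try ring_nf)

include he in
theorem example_exists : ∃ φ : (Fin 10 → ℝ) → V, IsSphImm UU φ ∧ IsPMC UU φ ∧
    IsBiharmonic UU φ ∧ (∀ x ∈ UU, mcv φ x ≠ 0) ∧
    ∀ x ∈ UU, ∃ k i j, covShape φ k i j x ≠ 0 := by
  refine ⟨phi e, (FE e he).imm, (FE e he).pmc, biharm he, fun x hx => ?_, fun x hx => ?_⟩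
  · refine (FE e he).mcv_ne (by norm_num) hx (a := Sum.inl 0) ?_
    rw [t0]; norm_num
  · refine (FE e he).covShape_ne hx (by norm_num) (a := Sum.inl 0) (b := Sum.inl 2)
      (c := Sum.inl 1) ?_ ?_
    · change r5 * (r5 - 1) / 4 ≠ 0
      have h : r5 * (r5 - 1) = 5 - r5 := by linear_combination r5_sq
      rw [h]
      intro h0
      have h5 : r5 = 5 := by linarith
      have := r5_sq
      rw [h5] at this
      norm_num at this
    · rw [t0, t2]
      intro h0
      have h5 : r5 = -5 := by linarith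
      have := r5_sq
      rw [h5] at this
      norm_num at this

end Pool.Agent.Q186.BH
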