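import Pool.Agent.Q186.BH.Defs

/-!
# Frame data for an immersion into the sphere (auxiliary)
-/

namespace Pool.Agent.Q186.BH

open Finset Filter Topology

variable {V : Type*} [NormedAddCommGroup V] [InnerProductSpace ℝ V] {m : ℕ}

/-! ### Partial derivatives -/

section pdl
variable {W : Type*} [NormedAddCommGroup W] [NormedSpace ℝ W]

theorem pd_congr {i : Fin m} {f g : (Fin m → ℝ) → W} {x : Fin m → ℝ} (h : f =ᶠ[𝓝 x] g) :
    pd i f x = pd i g x := by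
  unfold pd; rw [h.fderiv_eq]

theorem pd_congr_on {U : Set (Fin m → ℝ)} (hU : IsOpen U) {i : Fin m} {f g : (Fin m → ℝ) → W}
    {x : Fin m → ℝ} (hx : x ∈ U) (h : ∀ y ∈ U, f y = g y) : pd i f x = pd i g x :=
  pd_congr (by filter_upwards [hU.mem_nhds hx] with y hy using h y hy)

theorem pd_sum {ι : Type*} (s : Finset ι) {i : Fin m} {f : ι → (Fin m → ℝ) → W} {x : Fin m → ℝ}
    (h : ∀ a ∈ s, DifferentiableAt ℝ (f a) x) :
    pd i (fun y => ∑ a ∈ s, f a y) x = ∑ a ∈ s, pd i (f a) x := by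
  unfold pd
  rw [fderiv_fun_sum h, _root_.sum_apply]

theorem pd_add {i : Fin m} {f g : (Fin m → ℝ) → W} {x : Fin m → ℝ}
    (hf : DifferentiableAt ℝ f x) (hg : DifferentiableAt ℝ g x) :
    pd i (fun y => f y + g y) x = pd i f x + pd i g x := by
  unfold pd
  rw [fderiv_fun_add hf hg, _root_.add_apply]

theorem pd_smul {i : Fin m} {c : (Fin m → ℝ) → ℝ} {f : (Fin m → ℝ) → W} {x : Fin m → ℝ}
    (hc : DifferentiableAt ℝ c x) (hf : DifferentiableAt ℝ f x) :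
    pd i (fun y => c y • f y) x = c x • pd i f x + pd i c x • f x := by
  unfold pd
  rw [fderiv_fun_smul hc hf]
  simp

theorem pd_mul {i : Fin m} {c f : (Fin m → ℝ) → ℝ} {x : Fin m → ℝ}
    (hc : DifferentiableAt ℝ c x) (hf : DifferentiableAt ℝ f x) :
    pd i (fun y => c y * f y) x = c x * pd i f x + pd i c x * f x := by
  have := pd_smul (i := i) hc hf
  simpa [smul_eq_mul] using this

theorem pd_const_smul {i : Fin m} (c : ℝ) {f : (Fin m → ℝ) → W} {x : Fin m → ℝ}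
    (hf : DifferentiableAt ℝ f x) :
    pd i (fun y => c • f y) x = c • pd i f x := by
  unfold pd
  rw [fderiv_fun_const_smul hf]
  simp

theorem pd_const_mul {i : Fin m} (c : ℝ) {f : (Fin m → ℝ) → ℝ} {x : Fin m → ℝ}
    (hf : DifferentiableAt ℝ f x) :
    pd i (fun y => c * f y) x = c * pd i f x := by
  have := pd_const_smul (i := i) c hf
  simpa [smul_eq_mul] using this

end pdl

theorem pd_inner {i : Fin m} {f g : (Fin m → ℝ) → V} {x : Fin m → ℝ}
    (hf : DifferentiableAt ℝ f x) (hg : DifferentiableAt ℝ g x) :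
    pd i (fun y => (inner ℝ (f y) (g y) : ℝ)) x
      = inner ℝ (f x) (pd i g x) + inner ℝ (pd i f x) (g x) := by
  unfold pd
  rw [fderiv_inner_apply ℝ hf hg]

theorem pd_pd_symm {U : Set (Fin m → ℝ)} (hU : IsOpen U) {φ : (Fin m → ℝ) → V}
    (hφ : ContDiffOn ℝ (⊤ : ℕ∞) φ U) {x : Fin m → ℝ} (hx : x ∈ U) (i j : Fin m) :
    pd i (pd j φ) x = pd j (pd i φ) x := by
  have hc : ContDiffAt ℝ (⊤ : ℕ∞) φ x := hφ.contDiffAt (hU.mem_nhds hx)
  have hd : DifferentiableAt ℝ (fderiv ℝ φ) x := by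
    have : ContDiffAt ℝ 1 (fderiv ℝ φ) x := hc.fderiv_right (by norm_cast)
    exact this.differentiableAt (by norm_num)
  have hs : IsSymmSndFDerivAt ℝ φ x := by
    apply hc.isSymmSndFDerivAt
    have : (2 : WithTop ℕ∞) ≤ ((⊤ : ℕ∞) : WithTop ℕ∞) := 
      WithTop.coe_le_coe.mpr (le_top : (2 : ℕ∞) ≤ ⊤)
    simpa [minSmoothness] using this
  have key : ∀ a b : Fin m, pd a (pd b φ) x
      = fderiv ℝ (fderiv ℝ φ) x (Pi.single a 1) (Pi.single b 1) := by
    intro a b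
    unfold pd
    have : (fun y => fderiv ℝ φ y (Pi.single b (1:ℝ)))
        = fun y => (ContinuousLinearMap.apply ℝ V (Pi.single b (1:ℝ))) (fderiv ℝ φ y) := rfl
    rw [this, fderiv_fun_comp x (ContinuousLinearMap.differentiableAt _) hd]
    simp
  rw [key, key]
  exact hs _ _

theorem differentiableAt_pd {U : Set (Fin m → ℝ)} (hU : IsOpen U) {φ : (Fin m → ℝ) → V}
    (hφ : ContDiffOn ℝ (⊤ : ℕ∞) φ U) {x : Fin m → ℝ} (hx : x ∈ U) (j : Fin m) :
    DifferentiableAt ℝ (pd j φ) x := by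
  have hc : ContDiffAt ℝ (⊤ : ℕ∞) φ x := hφ.contDiffAt (hU.mem_nhds hx)
  have hd : DifferentiableAt ℝ (fderiv ℝ φ) x := by
    have : ContDiffAt ℝ 1 (fderiv ℝ φ) x := hc.fderiv_right (by norm_cast)
    exact this.differentiableAt (by norm_num)
  exact hd.clm_apply (differentiableAt_const _)


/-! ### Frame data -/

/-- Frame data of a homogeneous-type immersion. -/
structure Frame (U : Set (Fin m → ℝ)) (φ : (Fin m → ℝ) → V) (κ : Type) [Fintype κ]
    [DecidableEq κ] where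
  f : κ → (Fin m → ℝ) → V
  k : κ → (Fin m → ℝ) → V
  T : κ → Fin m → (Fin m → ℝ) → ℝ
  S : Fin m → κ → (Fin m → ℝ) → ℝ
  w : κ → κ → κ → ℝ
  K : κ → κ → ℝ
  hU : IsOpen U
  smooth : ContDiffOn ℝ (⊤ : ℕ∞) φ U
  unit : ∀ x ∈ U, inner ℝ (φ x) (φ x) = (1 : ℝ)
  df : ∀ a, ∀ x ∈ U, DifferentiableAt ℝ (f a) x
  dk : ∀ a, ∀ x ∈ U, DifferentiableAt ℝ (k a) x
  dT : ∀ a i, ∀ x ∈ U, DifferentiableAt ℝ (T a i) x
  dS : ∀ i a, ∀ x ∈ U, DifferentiableAt ℝ (S i a) x
  TS : ∀ x ∈ U, ∀ a b, ∑ i, T a i x * S i b x = if a = b then 1 else 0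
  ST : ∀ x ∈ U, ∀ i j, ∑ a, S i a x * T a j x = if i = j then 1 else 0
  pφ : ∀ x ∈ U, ∀ i, pd i φ x = ∑ a, T a i x • f a x
  pf : ∀ x ∈ U, ∀ i a, pd i (f a) x = ∑ b, (∑ c, w a b c * T c i x) • f b x + T a i x • k a x
  pk : ∀ x ∈ U, ∀ i a, pd i (k a) x = - ∑ b, (K a b * T b i x) • f b x
  ff : ∀ x ∈ U, ∀ a b, inner ℝ (f a x) (f b x) = if a = b then (1 : ℝ) else 0
  fk : ∀ x ∈ U, ∀ a b, inner ℝ (f a x) (k b x) = (0 : ℝ)
  fφ : ∀ x ∈ U, ∀ a, inner ℝ (f a x) (φ x) = (0 : ℝ)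
  kφ : ∀ x ∈ U, ∀ a, inner ℝ (k a x) (φ x) = (-1 : ℝ)
  kk : ∀ x ∈ U, ∀ a b, inner ℝ (k a x) (k b x) = K a b
  card : Fintype.card κ = m
  wanti : ∀ a b c, w a b c = - w b a c
  wdiag : ∀ a b, w a b b = 0

namespace Frame

variable {κ : Type} [Fintype κ] [DecidableEq κ] {U : Set (Fin m → ℝ)} {φ : (Fin m → ℝ) → V}
  (F : Frame U φ κ)

include F in
theorem gram_eq {x : Fin m → ℝ} (hx : x ∈ U) (i j : Fin m) :
    gram φ x i j = ∑ a, F.T a i x * F.T a j x := by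
  simp only [gram, Matrix.of_apply, F.pφ x hx, sum_inner, inner_sum, inner_smul_left,
    inner_smul_right, F.ff x hx]
  simp [mul_comm]

theorem inv_eq {x : Fin m → ℝ} (hx : x ∈ U) (i j : Fin m) :
    (gram φ x)⁻¹ i j = ∑ a, F.S i a x * F.S j a x := by
  set Tm : Matrix κ (Fin m) ℝ := Matrix.of fun a i => F.T a i x with hT
  set Sm : Matrix (Fin m) κ ℝ := Matrix.of fun i a => F.S i a x with hS
  have h1 : Tm * Sm = 1 := by
    ext a b
    rw [Matrix.mul_apply, Matrix.one_apply]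
    exact F.TS x hx a b
  have h2 : Sm * Tm = 1 := by
    ext i j
    rw [Matrix.mul_apply, Matrix.one_apply]
    exact F.ST x hx i j
  have h3 : gram φ x = Tm.transpose * Tm := by
    ext i j
    rw [Matrix.mul_apply, F.gram_eq hx]
    rfl
  have h4 : (gram φ x)⁻¹ = Sm * Sm.transpose := by
    apply Matrix.inv_eq_right_inv
    rw [h3]
    calc Tm.transpose * Tm * (Sm * Sm.transpose) = Tm.transpose * (Tm * Sm) * Sm.transpose := by
          simp only [Matrix.mul_assoc]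
      _ = (Sm * Tm).transpose := by rw [h1, Matrix.mul_one, Matrix.transpose_mul]
      _ = 1 := by rw [h2, Matrix.transpose_one]
  rw [h4, Matrix.mul_apply]
  rfl

theorem T_inv {x : Fin m → ℝ} (hx : x ∈ U) (a : κ) (j : Fin m) :
    ∑ i, F.T a i x * (gram φ x)⁻¹ i j = F.S j a x := by
  simp only [F.inv_eq hx, mul_sum, ← mul_assoc]
  rw [sum_comm]
  simp only [← sum_mul, F.TS x hx]
  simp

theorem T_inv' {x : Fin m → ℝ} (hx : x ∈ U) (a : κ) (j : Fin m) :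
    ∑ i, F.T a i x * (gram φ x)⁻¹ j i = F.S j a x := by
  rw [← F.T_inv hx a j]
  refine sum_congr rfl fun i _ => ?_
  rw [F.inv_eq hx, F.inv_eq hx]
  congr 1
  exact sum_congr rfl fun b _ => mul_comm _ _

theorem T_inv_T {x : Fin m → ℝ} (hx : x ∈ U) (a b : κ) :
    ∑ i, ∑ j, (gram φ x)⁻¹ i j * (F.T a i x * F.T b j x) = if a = b then 1 else 0 := by
  rw [sum_comm]
  have : ∀ j, ∑ i, (gram φ x)⁻¹ i j * (F.T a i x * F.T b j x) = F.T b j x * F.S j a x := by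
    intro j
    rw [← F.T_inv hx a j, mul_sum]
    exact sum_congr rfl fun i _ => by ring
  simp only [this, F.TS x hx]
  simp [eq_comm]

/-- Trace of a bilinear expression in the coframe. -/
theorem tr {W : Type*} [AddCommGroup W] [Module ℝ W] {x : Fin m → ℝ} (hx : x ∈ U)
    (v : κ → κ → W) :
    ∑ i, ∑ j, (gram φ x)⁻¹ i j • ∑ a, ∑ b, (F.T a i x * F.T b j x) • v a b = ∑ a, v a a := by
  have : ∑ i, ∑ j, (gram φ x)⁻¹ i j • ∑ a, ∑ b, (F.T a i x * F.T b j x) • v a b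
      = ∑ a, ∑ b, (∑ i, ∑ j, (gram φ x)⁻¹ i j * (F.T a i x * F.T b j x)) • v a b := by
    simp only [smul_sum, sum_smul, smul_smul]
    calc _ = ∑ i, ∑ a, ∑ j, ∑ b,
          ((gram φ x)⁻¹ i j * (F.T a i x * F.T b j x)) • v a b :=
          sum_congr rfl fun i _ => sum_comm
      _ = ∑ a, ∑ i, ∑ j, ∑ b, ((gram φ x)⁻¹ i j * (F.T a i x * F.T b j x)) • v a b := sum_comm
      _ = ∑ a, ∑ i, ∑ b, ∑ j, ((gram φ x)⁻¹ i j * (F.T a i x * F.T b j x)) • v a b :=
          sum_congr rfl fun a _ => sum_congr rfl fun i _ => sum_comm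
      _ = _ := sum_congr rfl fun a _ => sum_comm
  rw [this]
  simp only [F.T_inv_T hx, ite_smul, one_smul, zero_smul]
  simp

/-- Trace of a diagonal expression in the coframe. -/
theorem tr' {W : Type*} [AddCommGroup W] [Module ℝ W] {x : Fin m → ℝ} (hx : x ∈ U)
    (v : κ → W) :
    ∑ i, ∑ j, (gram φ x)⁻¹ i j • ∑ a, (F.T a i x * F.T a j x) • v a = ∑ a, v a := by
  have := F.tr hx (fun a b => if a = b then v a else 0)
  simpa using this

end Frame

end Pool.Agent.Q186.BH
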