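import Pool.Agent.Q186.BH.Frame

/-!
# Frame data: second fundamental form, mean curvature, Christoffel symbols (auxiliary)
-/

namespace Pool.Agent.Q186.BH

open Finset Filter Topology

variable {V : Type*} [NormedAddCommGroup V] [InnerProductSpace ℝ V] {m : ℕ}

namespace Frame

variable {κ : Type} [Fintype κ] [DecidableEq κ] {U : Set (Fin m → ℝ)} {φ : (Fin m → ℝ) → V}
  (F : Frame U φ κ)

theorem sph_add (x : Fin m → ℝ) (v w : V) : sph φ x (v + w) = sph φ x v + sph φ x w := by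
  simp only [sph, inner_add_left, add_smul]; abel

theorem sph_smul (x : Fin m → ℝ) (c : ℝ) (w : V) : sph φ x (c • w) = c • sph φ x w := by
  simp only [sph, inner_smul_left, smul_sub, smul_smul]; simp

/-- The projection to the sphere as a linear map. -/
noncomputable def sphL (φ : (Fin m → ℝ) → V) (x : Fin m → ℝ) : V →ₗ[ℝ] V where
  toFun := sph φ x
  map_add' := sph_add x
  map_smul' := fun c w => sph_smul x c w

/-- The normal projection as a linear map. -/
noncomputable def nrmL (φ : (Fin m → ℝ) → V) (x : Fin m → ℝ) : V →ₗ[ℝ] V where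
  toFun := nrm φ x
  map_add' := fun v w => by
    simp only [nrm, sph_add, inner_add_left, mul_add, add_smul, sum_add_distrib]; abel
  map_smul' := fun c w => by
    simp only [nrm, sph_smul, inner_smul_left, smul_sub, smul_sum, smul_smul]
    simp [mul_left_comm]

theorem sph_eqL (x : Fin m → ℝ) (w : V) : sph φ x w = sphL φ x w := rfl
theorem nrm_eqL (x : Fin m → ℝ) (w : V) : nrm φ x w = nrmL φ x w := rfl

theorem sph_f {x : Fin m → ℝ} (hx : x ∈ U) (a : κ) : sph φ x (F.f a x) = F.f a x := by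
  simp [sph, F.fφ x hx]

theorem sph_k {x : Fin m → ℝ} (hx : x ∈ U) (a : κ) : sph φ x (F.k a x) = F.k a x + φ x := by
  simp [sph, F.kφ x hx]

include F in
theorem sph_φ {x : Fin m → ℝ} (hx : x ∈ U) : sph φ x (φ x) = 0 := by
  rw [sph, F.unit x hx, one_smul, sub_self]

theorem inner_f_pφ {x : Fin m → ℝ} (hx : x ∈ U) (a : κ) (i : Fin m) :
    inner ℝ (F.f a x) (pd i φ x) = F.T a i x := by
  simp [F.pφ x hx, inner_sum, inner_smul_right, F.ff x hx]

theorem inner_k_pφ {x : Fin m → ℝ} (hx : x ∈ U) (a : κ) (i : Fin m) :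
    inner ℝ (F.k a x) (pd i φ x) = (0 : ℝ) := by
  simp only [F.pφ x hx, inner_sum, inner_smul_right]
  refine sum_eq_zero fun b _ => ?_
  rw [real_inner_comm, F.fk x hx, mul_zero]

include F in
theorem inner_φ_pφ {x : Fin m → ℝ} (hx : x ∈ U) (i : Fin m) :
    inner ℝ (φ x) (pd i φ x) = (0 : ℝ) := by
  simp only [F.pφ x hx, inner_sum, inner_smul_right]
  refine sum_eq_zero fun b _ => ?_
  rw [real_inner_comm, F.fφ x hx, mul_zero]

theorem nrm_f {x : Fin m → ℝ} (hx : x ∈ U) (a : κ) : nrm φ x (F.f a x) = 0 := by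
  rw [nrm, F.sph_f hx, sum_comm]
  simp only [F.inner_f_pφ hx, ← sum_smul]
  have : ∀ j, ∑ i, (gram φ x)⁻¹ i j * F.T a i x = F.S j a x := fun j => by
    rw [← F.T_inv hx a j]; exact sum_congr rfl fun i _ => mul_comm _ _
  simp only [this, F.pφ x hx, smul_sum, smul_smul]
  rw [sum_comm]
  simp only [← sum_smul]
  have h2 : ∀ b, ∑ i, F.S i a x * F.T b i x = if b = a then 1 else 0 := fun b => by
    rw [← F.TS x hx b a]; exact sum_congr rfl fun i _ => mul_comm _ _
  simp [h2]

theorem nrm_k {x : Fin m → ℝ} (hx : x ∈ U) (a : κ) : nrm φ x (F.k a x) = F.k a x + φ x := by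
  rw [nrm, F.sph_k hx]
  simp [F.inner_k_pφ hx]

theorem ppφ {x : Fin m → ℝ} (hx : x ∈ U) (i j : Fin m) :
    pd i (pd j φ) x = ∑ a, pd i (F.T a j) x • F.f a x
      + ∑ a, F.T a j x • (∑ b, (∑ c, F.w a b c * F.T c i x) • F.f b x)
      + ∑ a, (F.T a i x * F.T a j x) • F.k a x := by
  rw [pd_congr_on F.hU hx (fun y hy => F.pφ y hy j),
    pd_sum _ (fun a _ => (F.dT a j x hx).fun_smul (F.df a x hx)), ← sum_add_distrib,
    ← sum_add_distrib]
  refine sum_congr rfl fun a _ => ?_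
  rw [pd_smul (F.dT a j x hx) (F.df a x hx), F.pf x hx i a, smul_add, smul_smul,
    mul_comm (F.T a j x) (F.T a i x)]
  abel

theorem sff_eq {x : Fin m → ℝ} (hx : x ∈ U) (i j : Fin m) :
    sff φ i j x = ∑ a, (F.T a i x * F.T a j x) • (F.k a x + φ x) := by
  rw [sff, F.ppφ hx, nrm_eqL]
  simp only [map_add, map_sum, map_smul, ← nrm_eqL, F.nrm_f hx, F.nrm_k hx]
  simp

/-- The tension field in terms of frame data. -/
noncomputable def τ (F : Frame U φ κ) (x : Fin m → ℝ) : V := ∑ a, (F.k a x + φ x)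

/-- Trace constants. -/
noncomputable def t (F : Frame U φ κ) (b : κ) : ℝ := ∑ a, F.K a b - m

theorem mcv_eq {x : Fin m → ℝ} (hx : x ∈ U) : mcv φ x = (1 / (m : ℝ)) • F.τ x := by
  rw [mcv]
  simp only [F.sff_eq hx]
  rw [F.tr' hx]
  rfl

theorem tension_eq (hm : m ≠ 0) {x : Fin m → ℝ} (hx : x ∈ U) : tension φ x = F.τ x := by
  have : (m : ℝ) ≠ 0 := by exact_mod_cast hm
  rw [tension, F.mcv_eq hx, smul_smul, mul_one_div_cancel this, one_smul]

include F in
theorem dφ {x : Fin m → ℝ} (hx : x ∈ U) : DifferentiableAt ℝ φ x :=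
  (F.smooth.contDiffAt (F.hU.mem_nhds hx)).differentiableAt (by simp)

theorem dτ {x : Fin m → ℝ} (hx : x ∈ U) : DifferentiableAt ℝ F.τ x := by
  unfold τ
  exact DifferentiableAt.fun_sum fun a _ => (F.dk a x hx).add (F.dφ hx)

theorem pτ {x : Fin m → ℝ} (hx : x ∈ U) (i : Fin m) :
    pd i F.τ x = ∑ b, (- (F.t b * F.T b i x)) • F.f b x := by
  have h1 : pd i F.τ x = ∑ a, (pd i (F.k a) x + pd i φ x) := by
    unfold τ
    rw [pd_sum _ (fun a _ => (F.dk a x hx).fun_add (F.dφ hx))]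
    exact sum_congr rfl fun a _ => pd_add (F.dk a x hx) (F.dφ hx)
  rw [h1, sum_add_distrib]
  simp only [F.pk x hx, F.pφ x hx, sum_neg_distrib, sum_const, card_univ, F.card]
  rw [sum_comm]
  simp only [← sum_smul]
  rw [← Nat.cast_smul_eq_nsmul ℝ, smul_sum, ← sum_neg_distrib, ← sum_add_distrib]
  refine sum_congr rfl fun b _ => ?_
  rw [← neg_smul, smul_smul, ← add_smul, t, ← sum_mul]
  congr 1
  ring

include F in
theorem pmc : IsPMC U φ := by
  intro x hx i
  have h1 : pd i (mcv φ) x = (1 / (m : ℝ)) • pd i F.τ x := by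
    rw [pd_congr_on F.hU hx (fun y hy => F.mcv_eq hy), pd_const_smul _ (F.dτ hx)]
  rw [h1, F.pτ hx, nrm_eqL]
  simp only [map_smul, map_sum, ← nrm_eqL, F.nrm_f hx, smul_zero, sum_const_zero]

/-- The connection expression. -/
noncomputable def E (F : Frame U φ κ) (a : κ) (i j : Fin m) (x : Fin m → ℝ) : ℝ :=
  pd i (F.T a j) x + ∑ b, F.T b j x * ∑ c, F.w b a c * F.T c i x

theorem inner_ppφ {x : Fin m → ℝ} (hx : x ∈ U) (i j l : Fin m) :
    inner ℝ (pd i (pd j φ) x) (pd l φ x) = ∑ a, F.E a i j x * F.T a l x := by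
  rw [F.ppφ hx]
  simp only [inner_add_left, sum_inner, inner_smul_left, F.inner_f_pφ hx, F.inner_k_pφ hx]
  simp only [RCLike.conj_to_real, mul_zero, sum_const_zero, add_zero, E, add_mul,
    sum_add_distrib]
  congr 1
  simp only [mul_sum, sum_mul]
  rw [sum_comm]
  exact sum_congr rfl fun a _ => sum_congr rfl fun b _ => sum_congr rfl fun c _ => by ring

include F in
theorem chr_eq {x : Fin m → ℝ} (hx : x ∈ U) (k i j : Fin m) :
    chr φ k i j x = ∑ l, (gram φ x)⁻¹ k l * inner ℝ (pd i (pd j φ) x) (pd l φ x) := by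
  have hd : ∀ j, DifferentiableAt ℝ (pd j φ) x := fun j => differentiableAt_pd F.hU F.smooth hx j
  have hp : ∀ i j l, pd i (fun y => gram φ y j l) x
      = inner ℝ (pd j φ x) (pd i (pd l φ) x) + inner ℝ (pd i (pd j φ) x) (pd l φ x) := by
    intro i j l
    exact pd_inner (hd j) (hd l)
  rw [chr, mul_sum]
  refine sum_congr rfl fun l _ => ?_
  rw [hp, hp, hp, pd_pd_symm F.hU F.smooth hx l i, pd_pd_symm F.hU F.smooth hx l j,
    pd_pd_symm F.hU F.smooth hx j i, real_inner_comm (pd i (pd l φ) x) (pd j φ x)]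
  ring

theorem T_chr {x : Fin m → ℝ} (hx : x ∈ U) (a : κ) (i j : Fin m) :
    ∑ k, F.T a k x * chr φ k i j x = F.E a i j x := by
  simp only [F.chr_eq hx, F.inner_ppφ hx, mul_sum]
  rw [sum_comm]
  have : ∀ l, ∑ k, ∑ b, F.T a k x * ((gram φ x)⁻¹ k l * (F.E b i j x * F.T b l x))
      = ∑ b, F.E b i j x * (F.T b l x * F.S l a x) := by
    intro l
    rw [sum_comm]
    refine sum_congr rfl fun b _ => ?_
    rw [← F.T_inv hx a l]
    simp only [mul_sum]
    exact sum_congr rfl fun k _ => by ring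
  simp only [this]
  rw [sum_comm]
  simp only [← mul_sum, F.TS x hx]
  simp

end Frame

end Pool.Agent.Q186.BH
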