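import Pool.Agent.Q186.BH.Frame2

/-!
# Frame data: bitension field and covariant derivative of the shape operator (auxiliary)
-/

namespace Pool.Agent.Q186.BH

open Finset Filter Topology

variable {V : Type*} [NormedAddCommGroup V] [InnerProductSpace ℝ V] {m : ℕ}

namespace Frame

variable {κ : Type} [Fintype κ] [DecidableEq κ] {U : Set (Fin m → ℝ)} {φ : (Fin m → ℝ) → V}
  (F : Frame U φ κ)

theorem cov_tension (hm : m ≠ 0) {x : Fin m → ℝ} (hx : x ∈ U) (j : Fin m) :
    cov φ j (tension φ) x = ∑ b, (- (F.t b * F.T b j x)) • F.f b x := by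
  rw [cov, pd_congr_on F.hU hx (fun y hy => F.tension_eq hm hy), F.pτ hx, sph_eqL]
  simp only [map_sum, map_smul, ← sph_eqL, F.sph_f hx]

theorem cov_cov (hm : m ≠ 0) {x : Fin m → ℝ} (hx : x ∈ U) (i j : Fin m) :
    cov φ i (cov φ j (tension φ)) x
      = ∑ b, (- F.t b) • (pd i (F.T b j) x • F.f b x
        + F.T b j x • ((∑ a, (∑ c, F.w b a c * F.T c i x) • F.f a x)
          + F.T b i x • (F.k b x + φ x))) := by
  rw [cov, pd_congr_on F.hU hx (fun y hy => F.cov_tension hm hy j),
    pd_sum _ (fun b _ => ((F.dT b j x hx).const_mul (F.t b)).fun_neg.fun_smul (F.df b x hx)),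
    sph_eqL, map_sum]
  refine sum_congr rfl fun b _ => ?_
  have h1 : pd i (fun y => (-(F.t b * F.T b j y)) • F.f b y) x
      = (- F.t b) • (pd i (F.T b j) x • F.f b x + F.T b j x • pd i (F.f b) x) := by
    have : (fun y => (-(F.t b * F.T b j y)) • F.f b y)
        = fun y => (- F.t b) • (F.T b j y • F.f b y) := by
      funext y; rw [smul_smul]; congr 1; ring
    rw [this, pd_const_smul _ ((F.dT b j x hx).fun_smul (F.df b x hx)),
      pd_smul (F.dT b j x hx) (F.df b x hx), add_comm]
  rw [h1, F.pf x hx]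
  simp only [map_add, map_sum, map_smul, ← sph_eqL, F.sph_f hx, F.sph_k hx]

theorem chr_cov (hm : m ≠ 0) {x : Fin m → ℝ} (hx : x ∈ U) (i j : Fin m) :
    ∑ k, chr φ k i j x • cov φ k (tension φ) x = ∑ b, (- F.t b) • (F.E b i j x • F.f b x) := by
  simp only [F.cov_tension hm hx, smul_sum, smul_smul]
  rw [sum_comm]
  refine sum_congr rfl fun b _ => ?_
  rw [← sum_smul]
  congr 1
  rw [← F.T_chr hx b i j, mul_sum]
  exact sum_congr rfl fun k _ => by ring

theorem roughLap_eq (hm : m ≠ 0) {x : Fin m → ℝ} (hx : x ∈ U) :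
    roughLap φ (tension φ) x = ∑ b, (- F.t b) • (F.k b x + φ x) := by
  have h : ∀ i j, cov φ i (cov φ j (tension φ)) x - ∑ k, chr φ k i j x • cov φ k (tension φ) x
      = (∑ c, ∑ b, (F.T c i x * F.T b j x) • ∑ a, (- F.t b * F.w b a c) • F.f a x)
        - (∑ c, ∑ a, (F.T c i x * F.T a j x) • ∑ b, (- F.t b * F.w a b c) • F.f b x)
        + ∑ b, (F.T b i x * F.T b j x) • ((- F.t b) • (F.k b x + φ x)) := by
    intro i j
    rw [F.cov_cov hm hx, F.chr_cov hm hx]
    have e1 : ∑ c, ∑ b, (F.T c i x * F.T b j x) • ∑ a, (- F.t b * F.w b a c) • F.f a x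
        = ∑ b, (- F.t b) • F.T b j x • ∑ a, (∑ c, F.w b a c * F.T c i x) • F.f a x := by
      rw [sum_comm]
      refine sum_congr rfl fun b _ => ?_
      simp only [smul_sum, sum_smul, smul_smul]
      rw [sum_comm]
      exact sum_congr rfl fun a _ => sum_congr rfl fun c _ => by congr 1; ring
    have e2 : ∑ c, ∑ a, (F.T c i x * F.T a j x) • ∑ b, (- F.t b * F.w a b c) • F.f b x
        = ∑ b, (- F.t b) • ((∑ a, F.T a j x * ∑ c, F.w a b c * F.T c i x) • F.f b x) := by
      simp only [smul_sum, sum_smul, smul_smul, mul_sum]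
      calc _ = ∑ c, ∑ b, ∑ a, (F.T c i x * F.T a j x * (-F.t b * F.w a b c)) • F.f b x :=
            sum_congr rfl fun c _ => sum_comm
        _ = ∑ b, ∑ c, ∑ a, (F.T c i x * F.T a j x * (-F.t b * F.w a b c)) • F.f b x := sum_comm
        _ = ∑ b, ∑ a, ∑ c, (F.T c i x * F.T a j x * (-F.t b * F.w a b c)) • F.f b x :=
            sum_congr rfl fun b _ => sum_comm
        _ = _ := sum_congr rfl fun b _ => sum_congr rfl fun a _ => sum_congr rfl fun c _ => by
            congr 1; ring
    have e3 : ∑ b, (F.T b i x * F.T b j x) • ((- F.t b) • (F.k b x + φ x))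
        = ∑ b, (- F.t b) • F.T b j x • F.T b i x • (F.k b x + φ x) := by
      refine sum_congr rfl fun b _ => ?_
      simp only [smul_smul]; congr 1; ring
    rw [e1, e2, e3]
    simp only [smul_add, sum_add_distrib, E, add_smul]
    abel
  have hs : ∀ P Q R : Fin m → Fin m → V,
      ∑ i, ∑ j, (gram φ x)⁻¹ i j • (P i j - Q i j + R i j)
      = ∑ i, ∑ j, (gram φ x)⁻¹ i j • P i j - ∑ i, ∑ j, (gram φ x)⁻¹ i j • Q i j
        + ∑ i, ∑ j, (gram φ x)⁻¹ i j • R i j := by
    intro P Q R
    simp only [smul_add, smul_sub, sum_add_distrib, sum_sub_distrib]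
  rw [roughLap]
  simp only [h]
  rw [hs, F.tr hx (fun c b => ∑ a, (- F.t b * F.w b a c) • F.f a x),
    F.tr hx (fun c a => ∑ b, (- F.t b * F.w a b c) • F.f b x),
    F.tr' hx (fun b => (- F.t b) • (F.k b x + φ x))]
  have z1 : ∀ b a, F.w b a b = 0 := fun b a => by rw [F.wanti, F.wdiag, neg_zero]
  simp only [z1, mul_zero, zero_smul, sum_const_zero, sub_self]
  simp

theorem inner_τ_f {x : Fin m → ℝ} (hx : x ∈ U) (a : κ) :
    inner ℝ (F.τ x) (F.f a x) = (0 : ℝ) := by
  rw [τ, sum_inner]
  refine sum_eq_zero fun b _ => ?_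
  rw [inner_add_left, real_inner_comm, F.fk x hx, real_inner_comm, F.fφ x hx, add_zero]

theorem inner_τ_pφ {x : Fin m → ℝ} (hx : x ∈ U) (i : Fin m) :
    inner ℝ (F.τ x) (pd i φ x) = (0 : ℝ) := by
  rw [F.pφ x hx, inner_sum]
  refine sum_eq_zero fun b _ => ?_
  rw [inner_smul_right, F.inner_τ_f hx, mul_zero]

theorem inner_kφ_τ {x : Fin m → ℝ} (hx : x ∈ U) (a : κ) :
    inner ℝ (F.k a x + φ x) (F.τ x) = F.t a := by
  rw [τ, inner_sum]
  have : ∀ b, inner ℝ (F.k a x + φ x) (F.k b x + φ x) = F.K b a - 1 := by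
    intro b
    rw [inner_add_left, inner_add_right, inner_add_right, F.kφ x hx,
      real_inner_comm (F.k b x) (φ x), real_inner_comm (F.k b x) (F.k a x), F.kk x hx,
      F.unit x hx, F.kφ x hx]
    ring
  simp only [this, sum_sub_distrib, sum_const, card_univ, F.card, t]
  simp

theorem bitension_eq (hm : m ≠ 0) {x : Fin m → ℝ} (hx : x ∈ U) :
    bitension φ x = ∑ b, (- F.t b) • (F.k b x + φ x) + (m : ℝ) • F.τ x := by
  rw [bitension, F.roughLap_eq hm hx]
  have h : ∀ i j, curvS (pd i φ x) (tension φ x) (pd j φ x)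
      = ∑ a, (F.T a i x * F.T a j x) • (- F.τ x) := by
    intro i j
    have hg : inner ℝ (pd i φ x) (pd j φ x) = gram φ x i j := rfl
    rw [curvS, F.tension_eq hm hx, F.inner_τ_pφ hx, zero_smul, zero_sub, hg, F.gram_eq hx,
      ← sum_smul, smul_neg]
  simp only [h]
  rw [F.tr' hx (fun _ => - F.τ x), sum_const, card_univ, F.card, ← Nat.cast_smul_eq_nsmul ℝ,
    smul_neg, sub_neg_eq_add]

theorem shape_eq {x : Fin m → ℝ} (hx : x ∈ U) (i j : Fin m) :
    shape φ i j x = ∑ b, F.S i b x * ((F.t b / m) * F.T b j x) := by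
  have h : ∀ k, inner ℝ (sff φ k j x) (mcv φ x) = ∑ b, F.T b k x * ((F.t b / m) * F.T b j x) := by
    intro k
    rw [F.sff_eq hx, F.mcv_eq hx, sum_inner]
    refine sum_congr rfl fun b _ => ?_
    rw [inner_smul_left, inner_smul_right, F.inner_kφ_τ hx]
    simp only [RCLike.conj_to_real]
    ring
  rw [shape]
  simp only [h, mul_sum]
  rw [sum_comm]
  refine sum_congr rfl fun b _ => ?_
  rw [← F.T_inv' hx b i, sum_mul]
  exact sum_congr rfl fun k _ => by ring

theorem T_shape {x : Fin m → ℝ} (hx : x ∈ U) (b : κ) (j : Fin m) :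
    ∑ i, F.T b i x * shape φ i j x = (F.t b / m) * F.T b j x := by
  simp only [F.shape_eq hx, mul_sum]
  rw [sum_comm]
  have : ∀ a, ∑ i, F.T b i x * (F.S i a x * ((F.t a / m) * F.T a j x))
      = (if b = a then 1 else 0) * ((F.t a / m) * F.T a j x) := by
    intro a
    rw [← F.TS x hx b a, sum_mul]
    exact sum_congr rfl fun k _ => by ring
  simp only [this]
  simp

include F in
theorem dshape {x : Fin m → ℝ} (hx : x ∈ U) (i j : Fin m) :
    DifferentiableAt ℝ (shape φ i j) x := by
  have h1 : DifferentiableAt ℝ (fun y => ∑ b, F.S i b y * ((F.t b / m) * F.T b j y)) x :=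
    DifferentiableAt.fun_sum fun b _ => (F.dS i b x hx).fun_mul ((F.dT b j x hx).const_mul _)
  refine h1.congr_of_eventuallyEq ?_
  filter_upwards [F.hU.mem_nhds hx] with y hy using F.shape_eq hy i j

theorem T_covShape {x : Fin m → ℝ} (hx : x ∈ U) (b : κ) (k j : Fin m) :
    ∑ i, F.T b i x * covShape φ k i j x
      = ∑ a, ∑ c, (F.w a b c * (F.t a / m - F.t b / m)) * (F.T c k x * F.T a j x) := by
  have h1 : ∑ i, F.T b i x * pd k (shape φ i j) x + ∑ i, pd k (F.T b i) x * shape φ i j x
      = (F.t b / m) * pd k (F.T b j) x := by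
    rw [← pd_const_mul _ (F.dT b j x hx), ← sum_add_distrib,
      ← pd_congr_on F.hU hx (fun y hy => F.T_shape hy b j),
      pd_sum _ (fun i _ => (F.dT b i x hx).fun_mul (F.dshape hx i j))]
    exact sum_congr rfl fun i _ => (pd_mul (F.dT b i x hx) (F.dshape hx i j)).symm
  have h2 : ∑ i, F.T b i x * ∑ l, chr φ i k l x * shape φ l j x
      = ∑ l, F.E b k l x * shape φ l j x := by
    simp only [mul_sum]
    rw [sum_comm]
    refine sum_congr rfl fun l _ => ?_
    rw [← F.T_chr hx b k l, sum_mul]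
    exact sum_congr rfl fun i _ => by ring
  have h3 : ∑ i, F.T b i x * ∑ l, chr φ l k j x * shape φ i l x
      = (F.t b / m) * F.E b k j x := by
    simp only [mul_sum]
    rw [sum_comm]
    have : ∀ l, ∑ i, F.T b i x * (chr φ l k j x * shape φ i l x)
        = (F.t b / m) * (F.T b l x * chr φ l k j x) := by
      intro l
      have := F.T_shape hx b l
      calc _ = chr φ l k j x * ∑ i, F.T b i x * shape φ i l x := by
            rw [mul_sum]; exact sum_congr rfl fun i _ => by ring
        _ = _ := by rw [this]; ring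
    simp only [this, ← mul_sum, F.T_chr hx]
  have h4 : ∑ l, F.E b k l x * shape φ l j x
      = ∑ l, pd k (F.T b l) x * shape φ l j x
        + ∑ a, ∑ c, (F.w a b c * (F.t a / m)) * (F.T c k x * F.T a j x) := by
    simp only [E, add_mul, sum_add_distrib]
    congr 1
    simp only [sum_mul]
    rw [sum_comm]
    refine sum_congr rfl fun a _ => ?_
    have := F.T_shape hx a j
    calc _ = (∑ c, F.w a b c * F.T c k x) * ∑ l, F.T a l x * shape φ l j x := by
          rw [mul_sum]; exact sum_congr rfl fun l _ => by ring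
      _ = _ := by rw [this, sum_mul]; exact sum_congr rfl fun c _ => by ring
  have h5 : (F.t b / m) * F.E b k j x = (F.t b / m) * pd k (F.T b j) x
      + ∑ a, ∑ c, (F.w a b c * (F.t b / m)) * (F.T c k x * F.T a j x) := by
    simp only [E, mul_add, mul_sum]
    congr 1
    exact sum_congr rfl fun a _ => sum_congr rfl fun c _ => by ring
  simp only [covShape, mul_sub, mul_add, sum_sub_distrib, sum_add_distrib]
  rw [h2, h3, h4, h5]
  simp only [mul_sub, sub_mul, sum_sub_distrib]
  linarith [h1]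

theorem covShape_ne {x : Fin m → ℝ} (hx : x ∈ U) (hm : m ≠ 0) {a b c : κ} (hw : F.w a b c ≠ 0)
    (ht : F.t a ≠ F.t b) : ∃ k i j, covShape φ k i j x ≠ 0 := by
  by_contra hcon
  push Not at hcon
  have hm' : (m : ℝ) ≠ 0 := by exact_mod_cast hm
  have h0 : ∀ k j, ∑ a, ∑ c, (F.w a b c * (F.t a / m - F.t b / m)) * (F.T c k x * F.T a j x)
      = 0 := by
    intro k j
    rw [← F.T_covShape hx b k j]
    simp [hcon]
  have h1 : ∑ k, ∑ j, (F.S k c x * F.S j a x) *
      ∑ a', ∑ c', (F.w a' b c' * (F.t a' / m - F.t b / m)) * (F.T c' k x * F.T a' j x)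
      = F.w a b c * (F.t a / m - F.t b / m) := by
    have h2 : ∀ k, ∑ j, (F.S k c x * F.S j a x) *
        ∑ a', ∑ c', (F.w a' b c' * (F.t a' / m - F.t b / m)) * (F.T c' k x * F.T a' j x)
        = ∑ c', (F.w a b c' * (F.t a / m - F.t b / m)) * (F.T c' k x * F.S k c x) := by
      intro k
      simp only [mul_sum]
      rw [sum_comm]
      have : ∀ a', ∑ j, ∑ c', F.S k c x * F.S j a x *
          (F.w a' b c' * (F.t a' / m - F.t b / m) * (F.T c' k x * F.T a' j x))
          = (if a' = a then 1 else 0) *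
            ∑ c', (F.w a' b c' * (F.t a' / m - F.t b / m)) * (F.T c' k x * F.S k c x) := by
        intro a'
        rw [← F.TS x hx a' a, sum_mul]
        refine sum_congr rfl fun j _ => ?_
        rw [mul_sum]
        exact sum_congr rfl fun c' _ => by ring
      simp only [this]
      simp
    simp only [h2]
    rw [sum_comm]
    have : ∀ c', ∑ k, F.w a b c' * (F.t a / m - F.t b / m) * (F.T c' k x * F.S k c x)
        = F.w a b c' * (F.t a / m - F.t b / m) * (if c' = c then 1 else 0) := by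
      intro c'
      rw [← F.TS x hx c' c, mul_sum]
    simp only [this]
    simp
  simp only [h0, mul_zero, sum_const_zero] at h1
  have h3 : F.t a / m - F.t b / m ≠ 0 := by
    rw [← sub_div]
    exact div_ne_zero (sub_ne_zero.mpr ht) hm'
  exact mul_ne_zero hw h3 h1.symm

include F in
theorem imm : IsSphImm U φ := by
  refine ⟨F.hU, F.smooth, fun x hx => ?_, fun x hx => ?_⟩
  · have h := F.unit x hx
    rw [real_inner_self_eq_norm_sq] at h
    nlinarith [norm_nonneg (φ x)]
  · rw [injective_iff_map_eq_zero]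
    intro v hv
    have h1 : ∑ i, v i • pd i φ x = 0 := by
      have h2 : v = ∑ i, v i • (Pi.single i (1 : ℝ) : Fin m → ℝ) := by
        funext j
        simp [Finset.sum_apply, Pi.single_apply]
      rw [h2] at hv
      simpa [pd] using hv
    have h3 : ∀ a, ∑ i, v i * F.T a i x = 0 := by
      intro a
      have := congrArg (fun w => inner ℝ (F.f a x) w) h1
      simpa [inner_sum, inner_smul_right, F.inner_f_pφ hx] using this
    funext j
    have h4 : ∑ a, F.S j a x * ∑ i, v i * F.T a i x = v j := by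
      simp only [mul_sum]
      rw [sum_comm]
      have : ∀ i, ∑ a, F.S j a x * (v i * F.T a i x) = v i * (if j = i then 1 else 0) := by
        intro i
        rw [← F.ST x hx j i, mul_sum]
        exact sum_congr rfl fun a _ => by ring
      simp [this]
    rw [← h4]
    simp [h3]

theorem mcv_ne (hm : m ≠ 0) {x : Fin m → ℝ} (hx : x ∈ U) {a : κ} (ha : F.t a ≠ 0) :
    mcv φ x ≠ 0 := by
  intro h
  have h1 : F.τ x = 0 := by
    rw [← F.tension_eq hm hx, tension, h, smul_zero]
  have h2 := F.inner_kφ_τ hx a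
  rw [h1, inner_zero_right] at h2
  exact ha h2.symm

end Frame

end Pool.Agent.Q186.BH
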